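import Mathlib

set_option autoImplicit false

namespace Pool.Agent.T2H63.DI

/-- a separated finite set of small diameter is small -/
theorem card_sep (T : Finset ℝ) {σ D : ℝ} (hσ : 0 < σ) (hD0 : 0 ≤ D)
    (hD : ∀ x ∈ T, ∀ y ∈ T, |x - y| ≤ D) (hs : ∀ x ∈ T, ∀ y ∈ T, x ≠ y → σ ≤ |x - y|) :
    (T.card : ℝ) ≤ D / σ + 1 := by
  rcases T.eq_empty_or_nonempty with rfl | hne
  · simp; positivity
  · obtain ⟨m, hm, hmin⟩ := T.exists_min_image id hne
    have hmap : T.card ≤ (Finset.range (⌊D / σ⌋₊ + 1)).card := by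
      refine Finset.card_le_card_of_injOn (fun x => ⌊(x - m) / σ⌋₊) ?_ ?_
      · intro x hx
        simp only [Finset.coe_range, Set.mem_Iio, Nat.lt_succ_iff]
        refine Nat.floor_le_floor ?_
        have h1 := hD x hx m hm
        have h2 : x - m ≤ D := (le_abs_self _).trans h1
        gcongr
      · intro x hx y hy hxy
        by_contra hne'
        have h1 := hs x hx y hy hne'
        have hx0 : 0 ≤ (x - m) / σ := div_nonneg (sub_nonneg.2 (hmin x hx)) hσ.le
        have hy0 : 0 ≤ (y - m) / σ := div_nonneg (sub_nonneg.2 (hmin y hy)) hσ.le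
        simp only at hxy
        have h2 := Nat.floor_le hx0
        have h3 := Nat.lt_floor_add_one ((x - m) / σ)
        have h4 := Nat.floor_le hy0
        have h5 := Nat.lt_floor_add_one ((y - m) / σ)
        rw [hxy] at h2 h3
        have h6 : |(x - m) / σ - (y - m) / σ| < 1 := by rw [abs_lt]; constructor <;> linarith
        rw [← sub_div, abs_div, abs_of_pos hσ, div_lt_one hσ] at h6
        have h7 : x - m - (y - m) = x - y := by ring
        rw [h7] at h6
        linarith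
    rw [Finset.card_range] at hmap
    have h1 : ((⌊D / σ⌋₊ : ℕ) : ℝ) ≤ D / σ := Nat.floor_le (by positivity)
    have h2 : (T.card : ℝ) ≤ (⌊D / σ⌋₊ : ℝ) + 1 := by exact_mod_cast hmap
    linarith

/-- indices near separated points -/
theorem card_near (s : Finset ℕ) (f : ℕ → ℝ) (n : ℕ) {c w ρ σ : ℝ} (hw : 0 < w) (hρ : 0 ≤ ρ) (hσ : 0 < σ)
    (hn : ∀ i ∈ s, i < n) (hf : ∀ i ∈ s, |f i - (c + w * i)| ≤ ρ)
    (hs : ∀ i ∈ s, ∀ j ∈ s, f i ≠ f j → σ ≤ |f i - f j|) :
    (s.card : ℝ) ≤ (2 * ρ / w + 1) * ((n * w + 2 * ρ) / σ + 1) := by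
  classical
  have hfib : ∀ b ∈ s.image f, (s.filter (fun i => f i = b)).card ≤ ⌊2 * ρ / w + 1⌋₊ := by
    intro b _
    refine Nat.le_floor ?_
    have h1 := card_sep ((s.filter (fun i => f i = b)).map ⟨fun i : ℕ => (i : ℝ), Nat.cast_injective⟩)
      (σ := 1) (D := 2 * ρ / w) one_pos (by positivity) ?_ ?_
    · rw [Finset.card_map, div_one] at h1
      exact h1
    · intro x hx y hy
      simp only [Finset.mem_map, Finset.mem_filter, Function.Embedding.coeFn_mk] at hx hy
      obtain ⟨i, ⟨hi, hib⟩, rfl⟩ := hx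
      obtain ⟨j, ⟨hj, hjb⟩, rfl⟩ := hy
      have h2 := hf i hi
      have h3 := hf j hj
      rw [hib] at h2
      rw [hjb] at h3
      have h4 : ((i : ℝ) - j) * w = (b - (c + w * j)) - (b - (c + w * i)) := by ring
      have h5 : |(i : ℝ) - j| * w = |((i : ℝ) - j) * w| := by rw [abs_mul, abs_of_pos hw]
      change |(i : ℝ) - j| ≤ 2 * ρ / w
      rw [le_div_iff₀ hw, h5, h4]
      calc _ ≤ |b - (c + w * j)| + |b - (c + w * i)| := abs_sub _ _
        _ ≤ 2 * ρ := by linarith
    · intro x hx y hy hxy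
      simp only [Finset.mem_map, Finset.mem_filter, Function.Embedding.coeFn_mk] at hx hy
      obtain ⟨i, ⟨hi, hib⟩, rfl⟩ := hx
      obtain ⟨j, ⟨hj, hjb⟩, rfl⟩ := hy
      have hij : (i : ℤ) - j ≠ 0 := by
        intro h0
        apply hxy
        have : (i : ℤ) = j := by omega
        exact_mod_cast this
      have h5 : (1 : ℤ) ≤ |(i : ℤ) - j| := Int.one_le_abs hij
      exact_mod_cast h5
  have h1 := Finset.card_le_mul_card_image s _ hfib
  have h2 : ((s.image f).card : ℝ) ≤ (n * w + 2 * ρ) / σ + 1 := by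
    refine card_sep _ hσ (by positivity) ?_ ?_
    · intro x hx y hy
      obtain ⟨i, hi, rfl⟩ := Finset.mem_image.1 hx
      obtain ⟨j, hj, rfl⟩ := Finset.mem_image.1 hy
      have h3 := abs_le.1 (hf i hi)
      have h4 := abs_le.1 (hf j hj)
      have h5 : (i : ℝ) ≤ n := by exact_mod_cast (hn i hi).le
      have h6 : (j : ℝ) ≤ n := by exact_mod_cast (hn j hj).le
      have h7 : (0 : ℝ) ≤ i := Nat.cast_nonneg _
      have h8 : (0 : ℝ) ≤ j := Nat.cast_nonneg _
      have h9 : w * i ≤ n * w := by nlinarith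
      have h10 : w * j ≤ n * w := by nlinarith
      have h11 : 0 ≤ w * i := by positivity
      have h12 : 0 ≤ w * j := by positivity
      rw [abs_le]
      constructor <;> linarith
    · intro x hx y hy hxy
      obtain ⟨i, hi, rfl⟩ := Finset.mem_image.1 hx
      obtain ⟨j, hj, rfl⟩ := Finset.mem_image.1 hy
      exact hs i hi j hj hxy
  have h3 : ((⌊2 * ρ / w + 1⌋₊ : ℕ) : ℝ) ≤ 2 * ρ / w + 1 := Nat.floor_le (by positivity)
  calc (s.card : ℝ) ≤ (⌊2 * ρ / w + 1⌋₊ : ℝ) * ((s.image f).card : ℝ) := by exact_mod_cast h1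
    _ ≤ _ := by gcongr

end Pool.Agent.T2H63.DI
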