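import Mathlib
import Pool.Agent.T2H63.DI.Count

set_option autoImplicit false

namespace Pool.Agent.T2H63.DI

/-- a set of weighted points `(t, A)`, separated by `1 / A` inside each dyadic class of weights -/
def Sep (T : Set (ℝ × ℝ)) : Prop :=
  (∀ u ∈ T, 0 < u.2) ∧ ∀ u ∈ T, ∀ u' ∈ T, u.1 ≠ u'.1 → u'.2 ≤ u.2 → u.2 ≤ 2 * u'.2 → 1 / u.2 ≤ |u.1 - u'.1|

/-- centres of the children -/
noncomputable def cen (x r R : ℝ) (i : ℕ) : ℝ := x - r + r / R + 4 * r / R * i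

theorem dyadic {v : ℝ} (hv : 1 < v) : ∀ L : ℕ, v ≤ 2 ^ L → ∃ j < L, (2 : ℝ) ^ j < v ∧ v ≤ 2 ^ (j + 1) := by
  intro L
  induction L with
  | zero => intro h; simp at h; linarith
  | succ L ih =>
    intro h
    rcases le_or_gt v (2 ^ L) with h1 | h1
    · obtain ⟨j, hj, h2⟩ := ih h1
      exact ⟨j, by omega, h2⟩
    · exact ⟨L, by omega, h1, h⟩

theorem class_count {T : Set (ℝ × ℝ)} (hT : Sep T) {a ε x r R : ℝ} (ha : 0 < a) (hε : 0 < ε) (hr : 0 < r)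
    (hR : 0 < R) (n : ℕ) (hn : (n : ℝ) = R / 2) (hsm : ε / a + 1 / R ≤ 1) (j : ℕ) (s : Finset ℕ)
    (hsn : ∀ i ∈ s, i < n)
    (hs : ∀ i ∈ s, ∃ u ∈ T, 2 ^ j * (a / r) < u.2 ∧ u.2 ≤ 2 ^ (j + 1) * (a / r) ∧
      ∃ y, |y - cen x r R i| ≤ r / R ∧ |y - u.1| < ε / u.2) :
    (s.card : ℝ) ≤ 4 * ε * R + ε * R / (2 * a) * (1 / 2) ^ j + 12 * a * 2 ^ j + 3 / 2 := by
  have hs' : ∀ i, ∃ u : ℝ × ℝ, i ∈ s → (u ∈ T ∧ 2 ^ j * (a / r) < u.2 ∧ u.2 ≤ 2 ^ (j + 1) * (a / r) ∧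
      ∃ y, |y - cen x r R i| ≤ r / R ∧ |y - u.1| < ε / u.2) := by
    intro i
    by_cases hi : i ∈ s
    · obtain ⟨u, hu1, hu2⟩ := hs i hi
      exact ⟨u, fun _ => ⟨hu1, hu2⟩⟩
    · exact ⟨0, fun h => absurd h hi⟩
  choose u hu using hs'
  have h2j : (0 : ℝ) < 2 ^ j := by positivity
  have hj1 : (2 : ℝ) ^ (j + 1) = 2 * 2 ^ j := by ring
  have hρ : ε * r / (2 ^ j * a) + r / R ≤ r := by
    have h1 : ε * r / (2 ^ j * a) ≤ ε / a * r := by
      rw [div_mul_eq_mul_div, div_le_div_iff₀ (by positivity) ha]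
      have : (1 : ℝ) ≤ 2 ^ j := one_le_pow₀ (by norm_num)
      have h0 : 0 < ε * r * a := by positivity
      nlinarith
    have h2 : r / R = 1 / R * r := by ring
    rw [h2]
    nlinarith
  have h1 := card_near s (fun i => (u i).1) n (c := x - r + r / R) (w := 4 * r / R)
    (ρ := ε * r / (2 ^ j * a) + r / R) (σ := r / (2 ^ (j + 1) * a)) (by positivity) (by positivity)
    (by positivity) hsn ?_ ?_
  · refine h1.trans ?_
    have e1 : 2 * (ε * r / (2 ^ j * a) + r / R) / (4 * r / R) + 1 = ε * R / (2 * a) * (1 / 2) ^ j + 3 / 2 := by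
      rw [one_div, inv_pow]; field_simp; ring
    have e2 : (n * (4 * r / R) + 2 * (ε * r / (2 ^ j * a) + r / R)) / (r / (2 ^ (j + 1) * a)) + 1 ≤
        8 * a * 2 ^ j + 1 := by
      have e3 : (n : ℝ) * (4 * r / R) = 2 * r := by rw [hn]; field_simp; ring
      rw [e3]
      have e4 : (2 * r + 2 * (ε * r / (2 ^ j * a) + r / R)) / (r / (2 ^ (j + 1) * a)) ≤
          (4 * r) / (r / (2 ^ (j + 1) * a)) := by
        gcongr
        linarith
      have e5 : (4 * r) / (r / (2 ^ (j + 1) * a)) = 8 * a * 2 ^ j := by rw [hj1]; field_simp; ring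
      linarith
    rw [e1]
    have h3 : 0 ≤ ε * R / (2 * a) * (1 / 2) ^ j + 3 / 2 := by positivity
    refine (mul_le_mul_of_nonneg_left e2 h3).trans (le_of_eq ?_)
    have e6 : (1 / 2 : ℝ) ^ j * 2 ^ j = 1 := by rw [← mul_pow]; norm_num
    have e7 : (ε * R / (2 * a) * (1 / 2) ^ j + 3 / 2) * (8 * a * 2 ^ j + 1) =
        (ε * R / (2 * a) * (8 * a)) * ((1 / 2) ^ j * 2 ^ j) + ε * R / (2 * a) * (1 / 2) ^ j +
          12 * a * 2 ^ j + 3 / 2 := by ring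
    rw [e7, e6]
    have e8 : ε * R / (2 * a) * (8 * a) = 4 * ε * R := by field_simp; ring
    rw [e8]; ring
  · intro i hi
    obtain ⟨_, hu2, _, y, hy1, hy2⟩ := hu i hi
    have h3 : |y - (u i).1| ≤ ε * r / (2 ^ j * a) := by
      refine hy2.le.trans ?_
      have h4 : ε / (u i).2 ≤ ε / (2 ^ j * (a / r)) := by
        apply div_le_div_of_nonneg_left hε.le (by positivity) hu2.le
      refine h4.trans (le_of_eq ?_)
      field_simp
    have h5 : (u i).1 - (x - r + r / R + 4 * r / R * i) = (y - cen x r R i) - (y - (u i).1) := by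
      unfold cen; ring
    rw [h5]
    calc _ ≤ |y - cen x r R i| + |y - (u i).1| := abs_sub _ _
      _ ≤ _ := by linarith
  · intro i hi k hk hik
    obtain ⟨hi1, hi2, hi3, _⟩ := hu i hi
    obtain ⟨hk1, hk2, hk3, _⟩ := hu k hk
    have h6 : ∀ v : ℝ × ℝ, v ∈ T → v.2 ≤ 2 ^ (j + 1) * (a / r) → r / (2 ^ (j + 1) * a) ≤ 1 / v.2 := by
      intro v hv1 hv2
      have hv0 := hT.1 v hv1
      rw [div_le_div_iff₀ (by positivity) hv0, one_mul]
      calc r * v.2 ≤ r * (2 ^ (j + 1) * (a / r)) := by gcongr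
        _ = 2 ^ (j + 1) * a := by field_simp
    rcases le_total (u i).2 (u k).2 with h | h
    · have h7 := hT.2 _ hk1 _ hi1 (Ne.symm hik) h (by rw [hj1] at hk3; linarith)
      rw [abs_sub_comm] at h7
      exact (h6 _ hk1 hk3).trans h7
    · have h7 := hT.2 _ hi1 _ hk1 hik h (by rw [hj1] at hi3; linarith)
      exact (h6 _ hi1 hi3).trans h7

/-- a bad child -/
def BadIdx (T : Set (ℝ × ℝ)) (a ε x r R : ℝ) (i : ℕ) : Prop :=
  ∃ u ∈ T, a / r < u.2 ∧ u.2 ≤ R * (a / r) ∧ ∃ y, |y - cen x r R i| ≤ r / R ∧ |y - u.1| < ε / u.2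

theorem bad_count {T : Set (ℝ × ℝ)} (hT : Sep T) {a ε x r : ℝ} (ha : 0 < a) (hε : 0 < ε) (hr : 0 < r)
    (L : ℕ) (n : ℕ) (hn : (n : ℝ) = 2 ^ L / 2) (hsm : ε / a + 1 / 2 ^ L ≤ 1) (s : Finset ℕ)
    (hsn : ∀ i ∈ s, i < n) (hs : ∀ i ∈ s, BadIdx T a ε x r (2 ^ L) i) :
    (s.card : ℝ) ≤ 2 ^ L * (4 * ε * L + ε / a + 12 * a) + 3 / 2 * L := by
  classical
  have har : 0 < a / r := by positivity
  let Q : ℕ → ℕ → Prop := fun j i => ∃ u ∈ T, 2 ^ j * (a / r) < u.2 ∧ u.2 ≤ 2 ^ (j + 1) * (a / r) ∧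
      ∃ y, |y - cen x r (2 ^ L) i| ≤ r / 2 ^ L ∧ |y - u.1| < ε / u.2
  have hsub : s ⊆ (Finset.range L).biUnion (fun j => s.filter (Q j)) := by
    intro i hi
    obtain ⟨u, hu1, hu2, hu3, hu4⟩ := hs i hi
    obtain ⟨j, hj, hj1, hj2⟩ := dyadic (v := u.2 / (a / r)) (by rwa [lt_div_iff₀ har, one_mul]) L
      (by rw [div_le_iff₀ har]; exact hu3)
    rw [lt_div_iff₀ har] at hj1
    rw [div_le_iff₀ har] at hj2
    simp only [Finset.mem_biUnion, Finset.mem_range, Finset.mem_filter]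
    exact ⟨j, hj, hi, u, hu1, hj1, hj2, hu4⟩
  have h1 : (s.card : ℝ) ≤ ∑ j ∈ Finset.range L, ((s.filter (Q j)).card : ℝ) := by
    have h2 := (Finset.card_le_card hsub).trans Finset.card_biUnion_le
    exact_mod_cast h2
  have h3 : ∀ j ∈ Finset.range L, ((s.filter (Q j)).card : ℝ) ≤
      4 * ε * 2 ^ L + ε * 2 ^ L / (2 * a) * (1 / 2) ^ j + 12 * a * 2 ^ j + 3 / 2 := by
    intro j _
    exact class_count hT ha hε hr (by positivity) n hn hsm j _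
      (fun i hi => hsn i (Finset.mem_filter.1 hi).1) (fun i hi => (Finset.mem_filter.1 hi).2)
  refine (h1.trans (Finset.sum_le_sum h3)).trans ?_
  rw [Finset.sum_add_distrib, Finset.sum_add_distrib, Finset.sum_add_distrib, Finset.sum_const,
    Finset.sum_const, Finset.card_range, nsmul_eq_mul, nsmul_eq_mul]
  simp only [← Finset.mul_sum]
  have g1 : ∑ j ∈ Finset.range L, (1 / 2 : ℝ) ^ j ≤ 2 := by
    rw [geom_sum_eq (by norm_num), div_le_iff_of_neg (by norm_num)]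
    have : (0 : ℝ) ≤ (1 / 2) ^ L := by positivity
    linarith
  have g2 : ∑ j ∈ Finset.range L, (2 : ℝ) ^ j ≤ 2 ^ L := by
    rw [geom_sum_eq (by norm_num)]
    have : (0 : ℝ) ≤ 2 ^ L := by positivity
    linarith
  have g3 : ε * 2 ^ L / (2 * a) * ∑ j ∈ Finset.range L, (1 / 2 : ℝ) ^ j ≤ ε * 2 ^ L / (2 * a) * 2 := by gcongr
  have g4 : 12 * a * ∑ j ∈ Finset.range L, (2 : ℝ) ^ j ≤ 12 * a * 2 ^ L := by gcongr
  have g5 : ε * 2 ^ L / (2 * a) * 2 = 2 ^ L * (ε / a) := by field_simp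
  rw [g5] at g3
  linarith

end Pool.Agent.T2H63.DI
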