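import Mathlib
import Pool.Agent.T2H63.DI.Step

set_option autoImplicit false

namespace Pool.Agent.T2H63.DI

/-- `A X ^ 2 - B X Y + C Y ^ 2` is a positive definite form of discriminant `-3`
(with `C = (B ^ 2 + 3) / (4 A)`) -/
def Hex (A B : ℤ) : Prop := 0 < A ∧ ∃ C : ℤ, B ^ 2 + 3 = 4 * A * C

/-- hexagonal points -/
def hexSet : Set (ℝ × ℝ) := {u | ∃ A B : ℤ, Hex A B ∧ u = ((B : ℝ) / (2 * A), (A : ℝ))}

/-- rational points -/
def ratSet : Set (ℝ × ℝ) := {u | ∃ p q : ℤ, 0 < q ∧ u = ((p : ℝ) / q, (q : ℝ) ^ 2)}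

theorem Hex.odd {A B : ℤ} (h : Hex A B) : Odd B := by
  obtain ⟨_, C, hC⟩ := h
  by_contra hB
  rw [Int.not_odd_iff_even] at hB
  obtain ⟨k, rfl⟩ := hB
  have h1 : (k + k) ^ 2 + 3 = 4 * (k * k) + 3 := by ring
  rw [h1] at hC
  have h2 : 4 * A * C = 4 * (A * C) := by ring
  omega

theorem hex_sep_int {A B A' B' : ℤ} (h : Hex A B) (h' : Hex A' B') (hne : B * A' ≠ B' * A)
    (h1 : A' ≤ A) (h2 : A ≤ 2 * A') : 4 * A' ^ 2 ≤ (B * A' - B' * A) ^ 2 := by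
  obtain ⟨hA, C, hC⟩ := id h
  obtain ⟨hA', C', hC'⟩ := id h'
  have hodd : Odd (B * B') := h.odd.mul h'.odd
  obtain ⟨k, hk⟩ := hodd
  obtain ⟨n, hn⟩ : ∃ n : ℤ, n = A' * C + A * C' - k - 2 := ⟨_, rfl⟩
  have hkey : (B * A' - B' * A) ^ 2 + 3 * (A - A') ^ 2 = 4 * A * A' * n := by
    rw [hn]
    have e : (B * A' - B' * A) ^ 2 + 3 * (A - A') ^ 2 =
        A' ^ 2 * (B ^ 2 + 3) + A ^ 2 * (B' ^ 2 + 3) - 2 * A * A' * (B * B') - 6 * A * A' := by ring
    rw [e, hC, hC', hk]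
    ring
  have hpos : 0 < 4 * A * A' * n := by
    rw [← hkey]
    have : 0 < (B * A' - B' * A) ^ 2 := by
      have : B * A' - B' * A ≠ 0 := sub_ne_zero.2 hne
      positivity
    have := sq_nonneg (A - A')
    linarith
  have hn1 : 1 ≤ n := by
    by_contra h0
    have h3 : n ≤ 0 := by omega
    have : 4 * A * A' * n ≤ 0 := mul_nonpos_of_nonneg_of_nonpos (by positivity) h3
    linarith
  have h4 : 4 * A * A' ≤ 4 * A * A' * n := le_mul_of_one_le_right (by positivity) hn1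
  have h5 : 0 ≤ (A - A') * (7 * A' - 3 * A) := mul_nonneg (by omega) (by omega)
  nlinarith

theorem hex_sep_hexSet : Sep hexSet := by
  refine ⟨?_, ?_⟩
  · rintro u ⟨A, B, h, rfl⟩
    have hA : (0 : ℝ) < A := by exact_mod_cast h.1
    exact hA
  · rintro u ⟨A, B, h, rfl⟩ u' ⟨A', B', h', rfl⟩ hne h1 h2
    simp only at hne h1 h2 ⊢
    have hA : (0 : ℝ) < A := by exact_mod_cast h.1
    have hA' : (0 : ℝ) < A' := by exact_mod_cast h'.1
    have h1' : A' ≤ A := by exact_mod_cast h1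
    have h2' : A ≤ 2 * A' := by exact_mod_cast h2
    have hne' : B * A' ≠ B' * A := by
      intro h0
      apply hne
      rw [div_eq_div_iff (by positivity) (by positivity)]
      have : (B : ℝ) * A' = B' * A := by exact_mod_cast h0
      linarith
    have h3 := hex_sep_int h h' hne' h1' h2'
    have h4 : 4 * (A' : ℝ) ^ 2 ≤ ((B : ℝ) * A' - B' * A) ^ 2 := by exact_mod_cast h3
    have h5 : 2 * (A' : ℝ) ≤ |(B : ℝ) * A' - B' * A| := by
      have : (2 * (A' : ℝ)) ^ 2 ≤ |(B : ℝ) * A' - B' * A| ^ 2 := by rw [sq_abs]; linarith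
      exact (pow_le_pow_iff_left₀ (by positivity) (abs_nonneg _) two_ne_zero).1 this
    have h6 : (B : ℝ) / (2 * A) - B' / (2 * A') = (B * A' - B' * A) / (2 * A * A') := by
      field_simp
    rw [h6, abs_div, abs_of_pos (by positivity : (0 : ℝ) < 2 * A * A'), div_le_div_iff₀ hA (by positivity)]
    nlinarith

theorem rat_sep {p q p' q' : ℤ} (hq : 0 < q) (hq' : 0 < q') (hne : p * q' ≠ p' * q) :
    1 / ((q : ℝ) * q') ≤ |(p : ℝ) / q - p' / q'| := by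
  have hq1 : (0 : ℝ) < q := by exact_mod_cast hq
  have hq1' : (0 : ℝ) < q' := by exact_mod_cast hq'
  have h1 : (p : ℝ) / q - p' / q' = (p * q' - p' * q) / (q * q') := by field_simp
  rw [h1, abs_div, abs_of_pos (mul_pos hq1 hq1')]
  have h2 : (1 : ℤ) ≤ |p * q' - p' * q| := Int.one_le_abs (sub_ne_zero.2 hne)
  have h3 : (1 : ℝ) ≤ |(p : ℝ) * q' - p' * q| := by exact_mod_cast h2
  gcongr

theorem sep_ratSet : Sep ratSet := by
  refine ⟨?_, ?_⟩
  · rintro u ⟨p, q, hq, rfl⟩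
    have hq1 : (0 : ℝ) < q := by exact_mod_cast hq
    simp only; positivity
  · rintro u ⟨p, q, hq, rfl⟩ u' ⟨p', q', hq', rfl⟩ hne h1 _
    simp only at hne h1 ⊢
    have hq1 : (0 : ℝ) < q := by exact_mod_cast hq
    have hq1' : (0 : ℝ) < q' := by exact_mod_cast hq'
    have hne' : p * q' ≠ p' * q := by
      intro h0
      apply hne
      rw [div_eq_div_iff hq1.ne' hq1'.ne']
      exact_mod_cast h0
    refine le_trans ?_ (rat_sep hq hq' hne')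
    have h3 : (q' : ℝ) ≤ q := (pow_le_pow_iff_left₀ hq1'.le hq1.le two_ne_zero).1 h1
    apply one_div_le_one_div_of_le (by positivity)
    nlinarith

/-- positivity of the integral form -/
theorem Hex.star {A B : ℤ} (h : Hex A B) (p q : ℤ) (hpq : (p, q) ≠ (0, 0)) :
    ∃ n : ℤ, 1 ≤ n ∧ 4 * A * n = (2 * A * p - B * q) ^ 2 + 3 * q ^ 2 := by
  obtain ⟨hA, C, hC⟩ := id h
  refine ⟨A * p ^ 2 - B * p * q + C * q ^ 2, ?_, ?_⟩
  · have e : 4 * A * (A * p ^ 2 - B * p * q + C * q ^ 2) = (2 * A * p - B * q) ^ 2 + 3 * q ^ 2 := by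
      linear_combination (-q ^ 2) * hC
    have hpos : 0 < (2 * A * p - B * q) ^ 2 + 3 * q ^ 2 := by
      rcases eq_or_ne q 0 with h0 | h0
      · subst h0
        have hp : p ≠ 0 := by rintro rfl; exact hpq rfl
        have : 0 < (2 * A * p) ^ 2 := by positivity
        simpa using this
      · have : 0 < q ^ 2 := by positivity
        have := sq_nonneg (2 * A * p - B * q)
        linarith
    rw [← e] at hpos
    by_contra h0
    have h3 : A * p ^ 2 - B * p * q + C * q ^ 2 ≤ 0 := by omega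
    have : 4 * A * (A * p ^ 2 - B * p * q + C * q ^ 2) ≤ 0 :=
      mul_nonpos_of_nonneg_of_nonpos (by positivity) h3
    linarith
  · linear_combination (-q ^ 2) * hC

/-- a hexagonal point which is close to the vertical line over `P / N` has small weight -/
theorem Hex.near {A B : ℤ} (h : Hex A B) {p₀ q₀ P N : ℤ} (hq₀ : 0 < q₀) (hdet : P * q₀ - p₀ * N = 1)
    {k ε : ℝ} (hk : 11 ≤ k) (hN : k * q₀ ≤ N) (hε0 : 0 ≤ ε) (hε : ε ≤ 1 / 32)
    (hm : |2 * (A : ℝ) * P - B * N| < 4 * ε * N) : (A : ℝ) < (q₀ : ℝ) ^ 2 := by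
  obtain ⟨hA, C, hC⟩ := id h
  have hA' : (0 : ℝ) < A := by exact_mod_cast hA
  have hq : (0 : ℝ) < q₀ := by exact_mod_cast hq₀
  have hNpos : (0 : ℝ) < N := lt_of_lt_of_le (by positivity) hN
  have hNint : 0 < N := by exact_mod_cast hNpos
  obtain ⟨n, hn, hn2⟩ := h.star P N (by intro h0; simp at h0; omega)
  have hnC : n = A * P ^ 2 - B * P * N + C * N ^ 2 := by
    have e : 4 * A * (A * P ^ 2 - B * P * N + C * N ^ 2) = 4 * A * n := by
      rw [hn2]; linear_combination (-N ^ 2) * hC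
    have := mul_left_cancel₀ (by positivity : (4 * A : ℤ) ≠ 0) e
    exact this.symm
  obtain ⟨β, hβ⟩ : ∃ β : ℤ, β = 2 * A * P * p₀ - B * (P * q₀ + p₀ * N) + 2 * C * N * q₀ := ⟨_, rfl⟩
  have hβodd : Odd β := by
    have h1 : Odd (B * (P * q₀ + p₀ * N)) := by
      refine h.odd.mul ?_
      have : P * q₀ + p₀ * N = 2 * (p₀ * N) + 1 := by linarith
      rw [this]; exact odd_two_mul_add_one _
    obtain ⟨l, hl⟩ := h1
    rw [hβ, hl]
    exact ⟨A * P * p₀ - l + C * N * q₀ - 1, by ring⟩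
  have hβ1 : (1 : ℤ) ≤ |β| := Int.one_le_abs (by rintro h0; rw [h0] at hβodd; simp at hβodd)
  have hβ1' : (1 : ℝ) ≤ |(β : ℝ)| := by exact_mod_cast hβ1
  have hmβ : 2 * A * P - B * N = 2 * q₀ * n - N * β := by
    rw [hβ, hnC]
    linear_combination (-(2 * A * P - B * N)) * hdet
  have hmβ' : 2 * (A : ℝ) * P - B * N = 2 * q₀ * n - N * β := by exact_mod_cast hmβ
  have hn0 : (1 : ℝ) ≤ n := by exact_mod_cast hn
  -- lower bound for n
  have hnlow : (1 - 4 * ε) * N ≤ 2 * q₀ * n := by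
    have h1 : (N : ℝ) * |(β : ℝ)| ≤ |2 * (A : ℝ) * P - B * N| + 2 * q₀ * n := by
      have h2 : (N : ℝ) * β = 2 * q₀ * n - (2 * (A : ℝ) * P - B * N) := by rw [hmβ']; ring
      rw [← abs_of_pos hNpos, ← abs_mul, abs_of_pos hNpos, h2]
      have h3 : |(2 * (q₀ : ℝ) * n)| = 2 * q₀ * n := abs_of_pos (by positivity)
      calc |2 * (q₀ : ℝ) * n - (2 * (A : ℝ) * P - B * N)| ≤ |2 * (q₀ : ℝ) * n| + |2 * (A : ℝ) * P - B * N| := abs_sub _ _
        _ = _ := by rw [h3]; ring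
    have h4 : (N : ℝ) ≤ N * |(β : ℝ)| := le_mul_of_one_le_right hNpos.le hβ1'
    linarith
  have hn2' : 4 * (A : ℝ) * n = (2 * (A : ℝ) * P - B * N) ^ 2 + 3 * N ^ 2 := by exact_mod_cast hn2
  have hm2 : (2 * (A : ℝ) * P - B * N) ^ 2 ≤ (4 * ε * N) ^ 2 := by
    rw [← sq_abs]; gcongr
  -- upper bound for A
  have hAup : (A : ℝ) < 2 * N * q₀ := by
    by_contra h0
    push Not at h0
    have h1 : 4 * (2 * N * q₀) * n ≤ 4 * (A : ℝ) * n := by gcongr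
    have h2 : 4 * (N : ℝ) * ((1 - 4 * ε) * N) ≤ 4 * (2 * N * q₀) * n := by
      have := mul_le_mul_of_nonneg_left hnlow (by positivity : (0 : ℝ) ≤ 4 * N)
      linarith
    have h3 : 4 * (N : ℝ) * ((1 - 4 * ε) * N) ≤ (4 * ε * N) ^ 2 + 3 * N ^ 2 := by linarith
    have h4 : (N : ℝ) ^ 2 * (4 * (1 - 4 * ε)) ≤ N ^ 2 * (16 * ε ^ 2 + 3) := by nlinarith
    have h5 := le_of_mul_le_mul_left h4 (by positivity)
    nlinarith
  -- the second form value
  by_contra hcon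
  push Not at hcon
  obtain ⟨n', hn', hn2''⟩ := h.star p₀ q₀ (by intro h0; simp at h0; omega)
  have e1 : 4 * (A : ℝ) * n' = (2 * (A : ℝ) * p₀ - B * q₀) ^ 2 + 3 * q₀ ^ 2 := by exact_mod_cast hn2''
  have hn0' : (1 : ℝ) ≤ n' := by exact_mod_cast hn'
  have e2 : (A : ℝ) ≤ (2 * (A : ℝ) * p₀ - B * q₀) ^ 2 := by
    have : 4 * (A : ℝ) ≤ 4 * A * n' := le_mul_of_one_le_right (by positivity) hn0'
    linarith
  have hdet' : (P : ℝ) * q₀ - p₀ * N = 1 := by exact_mod_cast hdet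
  have e3 : (N : ℝ) * (2 * (A : ℝ) * p₀ - B * q₀) = q₀ * (2 * (A : ℝ) * P - B * N) - 2 * A := by
    linear_combination (-2 * (A : ℝ)) * hdet'
  have e4 : (N : ℝ) * |2 * (A : ℝ) * p₀ - B * q₀| ≤ q₀ * (4 * ε * N) + 2 * A := by
    have h1 : (N : ℝ) * |2 * (A : ℝ) * p₀ - B * q₀| = |(N : ℝ) * (2 * (A : ℝ) * p₀ - B * q₀)| := by
      rw [abs_mul, abs_of_pos hNpos]
    rw [h1, e3]
    calc _ ≤ |(q₀ : ℝ) * (2 * (A : ℝ) * P - B * N)| + |2 * (A : ℝ)| := abs_sub _ _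
      _ = q₀ * |2 * (A : ℝ) * P - B * N| + 2 * A := by
        rw [abs_mul, abs_of_pos hq, abs_of_pos (by positivity : (0 : ℝ) < 2 * A)]
      _ ≤ _ := by gcongr
  have e5 : (N : ℝ) ^ 2 * A ≤ (q₀ * (4 * ε * N) + 2 * A) ^ 2 := by
    calc (N : ℝ) ^ 2 * A ≤ N ^ 2 * (2 * (A : ℝ) * p₀ - B * q₀) ^ 2 := by gcongr
      _ = (N * |2 * (A : ℝ) * p₀ - B * q₀|) ^ 2 := by rw [mul_pow, sq_abs]
      _ ≤ _ := by gcongr
  -- expand
  have f1 : 16 * ε ^ 2 * N ^ 2 * (q₀ : ℝ) ^ 2 ≤ 16 * ε ^ 2 * N ^ 2 * A := by gcongr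
  have hqN : (q₀ : ℝ) ≤ N / 11 := by
    rw [le_div_iff₀ (by norm_num)]; nlinarith
  have f2 : 16 * ε * N * q₀ * (A : ℝ) ≤ 16 * ε * N * (N / 11) * A := by gcongr
  have f3 : 4 * (A : ℝ) * A ≤ 4 * A * (2 * N * (N / 11)) := by
    have : (A : ℝ) ≤ 2 * N * (N / 11) := hAup.le.trans (by gcongr)
    gcongr
  have f4 : (N : ℝ) ^ 2 * A ≤ N ^ 2 * A * (16 * ε ^ 2 + 16 * ε / 11 + 8 / 11) := by
    calc (N : ℝ) ^ 2 * A ≤ (q₀ * (4 * ε * N) + 2 * A) ^ 2 := e5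
      _ = 16 * ε ^ 2 * N ^ 2 * (q₀ : ℝ) ^ 2 + 16 * ε * N * q₀ * A + 4 * A * A := by ring
      _ ≤ 16 * ε ^ 2 * N ^ 2 * A + 16 * ε * N * (N / 11) * A + 4 * A * (2 * N * (N / 11)) := by linarith
      _ = _ := by ring
  have f5 : (1 : ℝ) ≤ 16 * ε ^ 2 + 16 * ε / 11 + 8 / 11 := by
    have hpos : 0 < (N : ℝ) ^ 2 * A := by positivity
    by_contra h0
    push Not at h0
    nlinarith
  nlinarith

end Pool.Agent.T2H63.DI
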