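import Mathlib
import Pool.Agent.T2H63.DI.Hex

set_option autoImplicit false

namespace Pool.Agent.T2H63.DI

/-- the ball avoids the neighbourhoods of the hexagonal points of weight at most `a / r` -/
def HexAv (a ε x r : ℝ) : Prop := ∀ u ∈ hexSet, u.2 * r ≤ a → ∀ y, |y - x| ≤ r → ε / u.2 ≤ |y - u.1|

/-- the ball is not deep in a cusp -/
def RatAv (a c x r : ℝ) : Prop :=
  ∀ p q : ℤ, 0 < q → (q : ℝ) ^ 2 * r ≤ a → ∀ y, |y - x| ≤ r → c * r ≤ (q * y - p) ^ 2

/-- admissible balls -/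
def Good (a c ε x r : ℝ) : Prop := 0 < r ∧ r ≤ 1 ∧ HexAv a ε x r ∧ RatAv a c x r

theorem cen_sub {x r R : ℝ} (hr : 0 < r) (hR : 0 < R) {i : ℕ} {n : ℕ} (hn : (n : ℝ) = R / 2) (hi : i < n) :
    |cen x r R i - x| + r / R ≤ r := by
  have h1 : (i : ℝ) + 1 ≤ R / 2 := by rw [← hn]; exact_mod_cast hi
  have h2 : cen x r R i - x = (r / R) * (1 + 4 * i - R) := by unfold cen; field_simp; ring
  have h0 : (0 : ℝ) ≤ i := Nat.cast_nonneg _
  have hrR : 0 < r / R := by positivity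
  have h3 : |1 + 4 * (i : ℝ) - R| ≤ R - 1 := by rw [abs_le]; constructor <;> linarith
  rw [h2, abs_mul, abs_of_pos hrR]
  calc r / R * |1 + 4 * (i : ℝ) - R| + r / R ≤ r / R * (R - 1) + r / R := by gcongr
    _ = r := by field_simp; ring

theorem cen_dist {x r R : ℝ} (hr : 0 < r) (hR : 0 < R) {i j : ℕ} (hij : i ≠ j) :
    4 * r / R ≤ |cen x r R i - cen x r R j| := by
  have h1 : cen x r R i - cen x r R j = (4 * r / R) * (((i : ℤ) - (j : ℤ) : ℤ) : ℝ) := by
    unfold cen; push_cast; ring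
  have h2 : (1 : ℤ) ≤ |(i : ℤ) - j| := Int.one_le_abs (by omega)
  have h3 : (1 : ℝ) ≤ |(((i : ℤ) - (j : ℤ) : ℤ) : ℝ)| := by exact_mod_cast h2
  have h4 : 0 < 4 * r / R := by positivity
  rw [h1, abs_mul, abs_of_pos h4]
  exact le_mul_of_one_le_right h4.le h3

theorem normal_step {L : ℕ} (hL : 9 ≤ L) {a κ c ε : ℝ} (ha : a = 1 / 400) (hκ : κ = 1 / (8000 * L))
    (hc : c = κ ^ 2 / a) (hε : 0 < ε) (hεκ : ε ≤ κ) {x r : ℝ} (hg : Good a c ε x r) :
    ∃ F : Finset ℝ, F.card = 2 ^ (L - 2) ∧ (∀ y ∈ F, Good a c ε y (r / 2 ^ L)) ∧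
      (∀ y ∈ F, |y - x| + r / 2 ^ L ≤ r) ∧
      ∀ y ∈ F, ∀ y' ∈ F, y ≠ y' → 4 * r / 2 ^ L ≤ |y - y'| := by
  classical
  obtain ⟨hr, hr1, hhex, hrat⟩ := hg
  have hL0 : (9 : ℝ) ≤ L := by exact_mod_cast hL
  have hκ0 : 0 < κ := by rw [hκ]; positivity
  have ha0 : 0 < a := by rw [ha]; norm_num
  have hc0 : 0 < c := by rw [hc]; positivity
  have hκL : κ * L = 1 / 8000 := by rw [hκ]; field_simp
  have hκs : κ ≤ 1 / 72000 := by
    rw [hκ]; apply one_div_le_one_div_of_le (by norm_num); linarith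
  have hR : (0 : ℝ) < 2 ^ L := by positivity
  have hRL : 3 * (L : ℝ) ≤ 8 / 100 * 2 ^ L := by
    have h1 : ∀ m : ℕ, 9 ≤ m → 38 * m ≤ 2 ^ m := by
      intro m hm
      induction m, hm using Nat.le_induction with
      | base => norm_num
      | succ m hm ih => rw [pow_succ]; omega
    have h2 : (38 : ℝ) * L ≤ 2 ^ L := by exact_mod_cast h1 L hL
    linarith
  have hR512 : (512 : ℝ) ≤ 2 ^ L := by
    calc (512 : ℝ) = 2 ^ 9 := by norm_num
      _ ≤ 2 ^ L := pow_le_pow_right₀ (by norm_num) hL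
  have h1R : (1 : ℝ) / 2 ^ L ≤ 1 / 512 := one_div_le_one_div_of_le (by norm_num) hR512
  obtain ⟨n, hn⟩ : ∃ n : ℕ, n = 2 ^ (L - 1) := ⟨_, rfl⟩
  have hnR : (n : ℝ) = 2 ^ L / 2 := by
    rw [hn]; push_cast
    rw [eq_div_iff two_ne_zero, ← pow_succ]
    congr 1; omega
  -- the bad indices
  let s1 := (Finset.range n).filter (fun i => BadIdx hexSet a ε x r (2 ^ L) i)
  let s2 := (Finset.range n).filter (fun i => BadIdx ratSet a κ x r (2 ^ L) i)
  have b1 := bad_count hex_sep_hexSet ha0 hε hr L n hnR (x := x) (by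
      have : ε / a ≤ 1 / 100 := by rw [ha, div_le_iff₀ (by norm_num)]; linarith
      linarith) s1 (fun i hi => Finset.mem_range.1 (Finset.mem_filter.1 hi).1)
    (fun i hi => (Finset.mem_filter.1 hi).2)
  have b2 := bad_count sep_ratSet ha0 hκ0 hr L n hnR (x := x) (by
      have : κ / a ≤ 1 / 100 := by rw [ha, div_le_iff₀ (by norm_num)]; linarith
      linarith) s2 (fun i hi => Finset.mem_range.1 (Finset.mem_filter.1 hi).1)
    (fun i hi => (Finset.mem_filter.1 hi).2)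
  have hεL : ε * L ≤ 1 / 8000 := by rw [← hκL]; gcongr
  have b1' : (s1.card : ℝ) ≤ 2 ^ L * (4 / 100) + 3 / 2 * L := by
    refine b1.trans ?_
    have : 4 * ε * L + ε / a + 12 * a ≤ 4 / 100 := by
      have h1 : ε / a ≤ 1 / 180 := by rw [ha, div_le_iff₀ (by norm_num)]; linarith
      rw [ha] at h1 ⊢; linarith
    gcongr
  have b2' : (s2.card : ℝ) ≤ 2 ^ L * (4 / 100) + 3 / 2 * L := by
    refine b2.trans ?_
    have : 4 * κ * L + κ / a + 12 * a ≤ 4 / 100 := by
      have h1 : κ / a ≤ 1 / 180 := by rw [ha, div_le_iff₀ (by norm_num)]; linarith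
      rw [ha] at h1 ⊢; linarith
    gcongr
  let g := Finset.range n \ (s1 ∪ s2)
  have hg1 : 2 ^ (L - 2) ≤ g.card := by
    have h1 : (Finset.range n).card ≤ g.card + (s1.card + s2.card) := by
      have h2 : Finset.range n ⊆ g ∪ (s1 ∪ s2) := by
        intro i hi
        by_cases h3 : i ∈ s1 ∪ s2
        · exact Finset.mem_union_right _ h3
        · exact Finset.mem_union_left _ (Finset.mem_sdiff.2 ⟨hi, h3⟩)
      calc _ ≤ (g ∪ (s1 ∪ s2)).card := Finset.card_le_card h2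
        _ ≤ g.card + (s1 ∪ s2).card := Finset.card_union_le _ _
        _ ≤ _ := by gcongr; exact Finset.card_union_le _ _
    rw [Finset.card_range] at h1
    have h2 : (n : ℝ) ≤ g.card + (s1.card + s2.card) := by exact_mod_cast h1
    have h3 : ((2 ^ (L - 2) : ℕ) : ℝ) = 2 ^ L / 4 := by
      push_cast
      rw [eq_div_iff (by norm_num), show (4 : ℝ) = 2 ^ 2 by norm_num, ← pow_add]
      congr 1; omega
    have h4 : ((2 ^ (L - 2) : ℕ) : ℝ) ≤ g.card := by rw [h3]; linarith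
    exact_mod_cast h4
  obtain ⟨g', hg'1, hg'2⟩ := Finset.exists_subset_card_eq hg1
  have hinj : Set.InjOn (cen x r (2 ^ L)) g' := by
    intro i _ j _ hij
    by_contra hne
    have := cen_dist (x := x) hr hR hne
    rw [hij, sub_self, abs_zero] at this
    have : 0 < 4 * r / 2 ^ L := by positivity
    linarith
  refine ⟨g'.image (cen x r (2 ^ L)), ?_, ?_, ?_, ?_⟩
  · rw [Finset.card_image_of_injOn hinj, hg'2]
  · intro y hy
    obtain ⟨i, hi, rfl⟩ := Finset.mem_image.1 hy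
    have hi2 := Finset.mem_sdiff.1 (hg'1 hi)
    have hin : i < n := Finset.mem_range.1 hi2.1
    have hn1 : ¬ BadIdx hexSet a ε x r (2 ^ L) i := fun h =>
      hi2.2 (Finset.mem_union_left _ (Finset.mem_filter.2 ⟨hi2.1, h⟩))
    have hn2 : ¬ BadIdx ratSet a κ x r (2 ^ L) i := fun h =>
      hi2.2 (Finset.mem_union_right _ (Finset.mem_filter.2 ⟨hi2.1, h⟩))
    have hin2 := cen_sub (x := x) hr hR hnR hin
    have hsub : ∀ z, |z - cen x r (2 ^ L) i| ≤ r / 2 ^ L → |z - x| ≤ r := by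
      intro z hz
      have : |z - x| ≤ |z - cen x r (2 ^ L) i| + |cen x r (2 ^ L) i - x| := abs_sub_le _ _ _
      linarith
    refine ⟨by positivity, ?_, ?_, ?_⟩
    · refine le_trans ?_ hr1
      exact div_le_self hr.le (by linarith)
    · intro u hu hua z hz
      by_cases h1 : u.2 * r ≤ a
      · exact hhex u hu h1 z (hsub z hz)
      · push Not at h1
        by_contra h2
        push Not at h2
        refine hn1 ⟨u, hu, ?_, ?_, z, hz, h2⟩
        · rwa [div_lt_iff₀ hr]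
        · rw [← mul_div_assoc, le_div_iff₀ hr]
          rw [← mul_div_assoc, div_le_iff₀ hR] at hua
          linarith
    · intro p q hq hqa z hz
      have hq' : (0 : ℝ) < q := by exact_mod_cast hq
      by_cases h1 : (q : ℝ) ^ 2 * r ≤ a
      · refine le_trans ?_ (hrat p q hq h1 z (hsub z hz))
        have : r / 2 ^ L ≤ r := div_le_self hr.le (by linarith)
        gcongr
      · push Not at h1
        have h3 : κ / (q : ℝ) ^ 2 ≤ |z - p / q| := by
          by_contra h2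
          push Not at h2
          refine hn2 ⟨((p : ℝ) / q, (q : ℝ) ^ 2), ⟨p, q, hq, rfl⟩, ?_, ?_, z, hz, h2⟩
          · rwa [div_lt_iff₀ hr]
          · rw [← mul_div_assoc, le_div_iff₀ hr]
            rw [← mul_div_assoc, div_le_iff₀ hR] at hqa
            linarith
        have h4 : ((q : ℝ) * z - p) ^ 2 = q ^ 2 * |z - p / q| ^ 2 := by
          rw [sq_abs]; field_simp
        rw [h4]
        calc c * (r / 2 ^ L) = κ ^ 2 / a * (r / 2 ^ L) := by rw [hc]
          _ ≤ κ ^ 2 / q ^ 2 := by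
            rw [div_mul_eq_mul_div, div_le_div_iff₀ ha0 (by positivity)]
            have : κ ^ 2 * ((q : ℝ) ^ 2 * (r / 2 ^ L)) ≤ κ ^ 2 * a := by gcongr
            linarith
          _ = q ^ 2 * (κ / q ^ 2) ^ 2 := by field_simp
          _ ≤ _ := by gcongr
  · intro y hy
    obtain ⟨i, hi, rfl⟩ := Finset.mem_image.1 hy
    exact cen_sub hr hR hnR (Finset.mem_range.1 (Finset.mem_sdiff.1 (hg'1 hi)).1)
  · intro y hy y' hy' hne
    obtain ⟨i, hi, rfl⟩ := Finset.mem_image.1 hy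
    obtain ⟨j, hj, rfl⟩ := Finset.mem_image.1 hy'
    exact cen_dist hr hR (fun h => hne (by rw [h]))

end Pool.Agent.T2H63.DI
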