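import Mathlib
import Pool.Agent.T2H63.DI.Normal

set_option autoImplicit false

namespace Pool.Agent.T2H63.DI

/-- a rational of bounded height in an admissible ball -/
theorem dirichlet_step {a κ c ε : ℝ} (ha : a = 1 / 400) (hκ0 : 0 < κ) (hκs : κ ≤ 1 / 72000)
    (hc : c = κ ^ 2 / a) {x r : ℝ} (hg : Good a c ε x r) :
    ∃ p₀ q₀ : ℤ, 0 < q₀ ∧ IsCoprime p₀ q₀ ∧ a < (q₀ : ℝ) ^ 2 * r ∧ (q₀ : ℝ) ^ 2 * r ≤ 4 / κ ^ 2 ∧
      |x - p₀ / q₀| ≤ r / 4 := by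
  obtain ⟨hr, hr1, -, hrat⟩ := hg
  obtain ⟨ρ, hρ⟩ : ∃ ρ : ℝ, ρ = Real.sqrt r := ⟨_, rfl⟩
  have hρ0 : 0 < ρ := hρ ▸ Real.sqrt_pos.2 hr
  have hρ2 : ρ ^ 2 = r := hρ ▸ Real.sq_sqrt hr.le
  have hρ1 : ρ ≤ 1 := by nlinarith
  have hK : 0 < 1 / (κ * ρ) := by positivity
  obtain ⟨n, hn⟩ : ∃ n : ℕ, n = ⌈1 / (κ * ρ)⌉₊ := ⟨_, rfl⟩
  have hn0 : 0 < n := hn ▸ Nat.ceil_pos.2 hK
  have hn1 : 1 / (κ * ρ) ≤ n := hn ▸ Nat.le_ceil _
  have hn2 : (n : ℝ) < 1 / (κ * ρ) + 1 := hn ▸ Nat.ceil_lt_add_one hK.le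
  have hn3 : (n : ℝ) ≤ 2 / (κ * ρ) := by
    have h1 : 1 ≤ 1 / (κ * ρ) := by
      rw [le_div_iff₀ (by positivity)]; nlinarith
    have h2 : 2 / (κ * ρ) = 1 / (κ * ρ) + 1 / (κ * ρ) := by ring
    linarith
  obtain ⟨s, hs1, hs2⟩ := Real.exists_rat_abs_sub_le_and_den_le x hn0
  have hd : (0 : ℝ) < s.den := by exact_mod_cast s.den_pos
  have hsx : (s : ℝ) = (s.num : ℝ) / (((s.den : ℕ) : ℤ) : ℝ) := by
    rw [Rat.cast_def]; simp
  have hdn : (s.den : ℝ) ≤ n := by exact_mod_cast hs2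
  have hnp : (0 : ℝ) < n + 1 := by positivity
  have hlow : a < (s.den : ℝ) ^ 2 * r := by
    by_contra hcon
    push Not at hcon
    have h1 := hrat s.num s.den (by exact_mod_cast s.den_pos) (by simpa using hcon) x (by simpa using hr.le)
    have h2 : |((s.den : ℤ) : ℝ) * x - s.num| ≤ κ * ρ := by
      have h3 : ((s.den : ℤ) : ℝ) * x - s.num = s.den * (x - s) := by
        rw [hsx]; push_cast; field_simp
      rw [h3, abs_mul, abs_of_pos hd]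
      calc (s.den : ℝ) * |x - s| ≤ s.den * (1 / ((n + 1) * s.den)) := by gcongr
        _ = 1 / (n + 1) := by field_simp
        _ ≤ 1 / (1 / (κ * ρ)) := by apply one_div_le_one_div_of_le hK; linarith
        _ = κ * ρ := by field_simp
    have h4 : c * r ≤ (κ * ρ) ^ 2 := by
      refine h1.trans ?_
      rw [← sq_abs]
      gcongr
    rw [mul_pow, hρ2] at h4
    have h5 : c ≤ κ ^ 2 := le_of_mul_le_mul_right h4 hr
    rw [hc, ha, div_le_iff₀ (by norm_num)] at h5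
    have : 0 < κ ^ 2 := by positivity
    linarith
  refine ⟨s.num, s.den, by exact_mod_cast s.den_pos, ?_, by simpa using hlow, ?_, ?_⟩
  · rw [Int.isCoprime_iff_gcd_eq_one]
    exact s.reduced
  · have h1 : (s.den : ℝ) ≤ 2 / (κ * ρ) := hdn.trans hn3
    have h2 : (s.den : ℝ) ^ 2 ≤ (2 / (κ * ρ)) ^ 2 := by gcongr
    have h3 : (2 / (κ * ρ)) ^ 2 = 4 / κ ^ 2 / r := by
      rw [div_pow, mul_pow, hρ2]; field_simp; norm_num
    rw [h3, le_div_iff₀ hr] at h2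
    simpa using h2
  · have h1 : |x - s| ≤ κ * ρ / s.den := by
      refine hs1.trans ?_
      rw [div_le_div_iff₀ (by positivity) hd]
      have h2 : 1 ≤ κ * ρ * (n + 1) := by
        rw [div_le_iff₀ (by positivity)] at hn1
        nlinarith
      nlinarith
    rw [hsx] at h1
    refine h1.trans ?_
    rw [div_le_iff₀ hd]
    -- κ ρ ≤ r / 4 * den
    have h4 : ρ ≤ 20 * (s.den : ℝ) * r := by
      have h5 : ρ ^ 2 ≤ (20 * (s.den : ℝ) * r) ^ 2 := by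
        rw [hρ2]
        have h6 : (20 * (s.den : ℝ) * r) ^ 2 = 400 * ((s.den : ℝ) ^ 2 * r) * r := by ring
        rw [h6]
        rw [ha] at hlow
        nlinarith
      exact (pow_le_pow_iff_left₀ hρ0.le (by positivity) two_ne_zero).1 h5
    calc κ * ρ ≤ 1 / 72000 * (20 * (s.den : ℝ) * r) := by gcongr
      _ ≤ r / 4 * s.den := by nlinarith [mul_pos hd hr]

theorem farey {p₀ q₀ : ℤ} (hq : 0 < q₀) (h : IsCoprime p₀ q₀) :
    ∃ p' q' : ℤ, 0 ≤ q' ∧ q' < q₀ ∧ p' * q₀ - p₀ * q' = 1 := by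
  obtain ⟨u, v, huv⟩ := h
  refine ⟨v - p₀ * ((-u) / q₀), (-u) % q₀, Int.emod_nonneg _ hq.ne', Int.emod_lt_of_pos _ hq, ?_⟩
  have h1 := Int.mul_ediv_add_emod (-u) q₀
  have h2 : (-u) % q₀ = -u - q₀ * ((-u) / q₀) := by linarith
  rw [h2]
  linear_combination huv

end Pool.Agent.T2H63.DI
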