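import Mathlib
import Pool.Agent.T2H63.DI.Special

set_option autoImplicit false

namespace Pool.Agent.T2H63.DI

theorem close_iff {A B P N : ℤ} (hA : 0 < A) (hN : 0 < N) {ε : ℝ} :
    |(P : ℝ) / N - B / (2 * A)| < 2 * ε / A ↔ |2 * (A : ℝ) * P - B * N| < 4 * ε * N := by
  have hA' : (0 : ℝ) < A := by exact_mod_cast hA
  have hN' : (0 : ℝ) < N := by exact_mod_cast hN
  have h1 : (P : ℝ) / N - B / (2 * A) = (2 * (A : ℝ) * P - B * N) / (2 * A * N) := by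
    field_simp
  rw [h1, abs_div, abs_of_pos (by positivity : (0 : ℝ) < 2 * A * N), div_lt_div_iff₀ (by positivity) hA']
  constructor
  · intro h
    have h2 : (A : ℝ) * |2 * (A : ℝ) * P - B * N| < A * (4 * ε * N) := by linarith
    exact lt_of_mul_lt_mul_left h2 hA'.le
  · intro h
    have h2 : (A : ℝ) * |2 * (A : ℝ) * P - B * N| < A * (4 * ε * N) := by gcongr
    linarith

theorem choose_k {a κ ε : ℝ} (ha : a = 1 / 400) (hκ0 : 0 < κ) {J k₁ : ℕ} (hJ : 4 / κ ^ 2 ≤ 2 ^ J * a)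
    (hk₁ : J < k₁) (hk₁' : 3200 ≤ k₁) (hε0 : 0 < ε) (hε : ε ≤ 1 / 32) (hε2 : 64 * ε * k₁ ^ 2 / κ ^ 2 ≤ a)
    {r : ℝ} (hr : 0 < r) {p₀ q₀ p' q' : ℤ} (hq₀ : 0 < q₀) (hq' : 0 ≤ q') (hq'2 : q' < q₀)
    (hdet : p' * q₀ - p₀ * q' = 1) (hlow : a < (q₀ : ℝ) ^ 2 * r) (hup : (q₀ : ℝ) ^ 2 * r ≤ 4 / κ ^ 2) :
    ∃ k : ℕ, k₁ ≤ k ∧ k < 2 * k₁ ∧ ∀ A B : ℤ, Hex A B → a < A * r →
      2 * ε / A ≤ |(((k : ℤ) * p₀ + p' : ℤ) : ℝ) / ((k : ℤ) * q₀ + q' : ℤ) - B / (2 * A)| := by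
  classical
  have ha0 : 0 < a := by rw [ha]; norm_num
  have har : 0 < a / r := by positivity
  have hq : (0 : ℝ) < q₀ := by exact_mod_cast hq₀
  have hk₁0 : (3200 : ℝ) ≤ k₁ := by exact_mod_cast hk₁'
  have hk₁p : 0 < k₁ := by omega
  by_contra hcon
  push Not at hcon
  have hcon' : ∀ k : ℕ, ∃ AB : ℤ × ℤ, k₁ ≤ k → k < 2 * k₁ → (Hex AB.1 AB.2 ∧ a < AB.1 * r ∧
      |(((k : ℤ) * p₀ + p' : ℤ) : ℝ) / ((k : ℤ) * q₀ + q' : ℤ) - AB.2 / (2 * AB.1)| < 2 * ε / AB.1) := by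
    intro k
    by_cases h1 : k₁ ≤ k ∧ k < 2 * k₁
    · obtain ⟨A, B, h2⟩ := hcon k h1.1 h1.2
      exact ⟨(A, B), fun _ _ => h2⟩
    · exact ⟨0, fun h2 h3 => absurd ⟨h2, h3⟩ h1⟩
  choose AB hAB using hcon'
  have hNpos : ∀ k : ℕ, k₁ ≤ k → 0 < (k : ℤ) * q₀ + q' := by
    intro k hk
    have : 0 < (k : ℤ) * q₀ := mul_pos (by omega) hq₀
    omega
  have hNlow : ∀ k : ℕ, k₁ ≤ k → (k₁ : ℝ) * q₀ ≤ (((k : ℤ) * q₀ + q' : ℤ) : ℝ) := by
    intro k hk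
    have h1 : (k₁ : ℤ) * q₀ ≤ (k : ℤ) * q₀ + q' := by
      have : (k₁ : ℤ) * q₀ ≤ (k : ℤ) * q₀ := by gcongr; 
      omega
    exact_mod_cast h1
  have hNup : ∀ k : ℕ, k < 2 * k₁ → (((k : ℤ) * q₀ + q' : ℤ) : ℝ) ≤ 2 * k₁ * q₀ := by
    intro k hk
    have h1 : (k : ℤ) * q₀ + q' ≤ 2 * (k₁ : ℤ) * q₀ := by
      have : ((k : ℤ) + 1) * q₀ ≤ (2 * (k₁ : ℤ)) * q₀ := by gcongr; omega
      linarith
    exact_mod_cast h1
  have hdetk : ∀ k : ℕ, ((k : ℤ) * p₀ + p') * q₀ - p₀ * ((k : ℤ) * q₀ + q') = 1 := by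
    intro k; linear_combination hdet
  have hAq : ∀ k : ℕ, k₁ ≤ k → k < 2 * k₁ → ((AB k).1 : ℝ) < (q₀ : ℝ) ^ 2 := by
    intro k h1 h2
    obtain ⟨g1, g2, g3⟩ := hAB k h1 h2
    refine g1.near hq₀ (hdetk k) (k := k₁) (ε := ε) (by linarith) (hNlow k h1) hε0.le hε ?_
    exact (close_iff g1.1 (hNpos k h1)).1 g3
  have hclass : ∀ k : ℕ, ∃ j : ℕ, k₁ ≤ k → k < 2 * k₁ → (j < J ∧ 2 ^ j * (a / r) < (AB k).1 ∧
      ((AB k).1 : ℝ) ≤ 2 ^ (j + 1) * (a / r)) := by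
    intro k
    by_cases h1 : k₁ ≤ k ∧ k < 2 * k₁
    · obtain ⟨g1, g2, g3⟩ := hAB k h1.1 h1.2
      obtain ⟨j, hj, hj1, hj2⟩ := dyadic (v := (AB k).1 / (a / r)) (by
          rw [lt_div_iff₀ har, one_mul, div_lt_iff₀ hr]; exact g2) J (by
          rw [div_le_iff₀ har, ← mul_div_assoc, le_div_iff₀ hr]
          refine le_trans ?_ hJ
          refine le_trans ?_ hup
          have := (hAq k h1.1 h1.2).le
          gcongr)
      rw [lt_div_iff₀ har] at hj1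
      rw [div_le_iff₀ har] at hj2
      exact ⟨j, fun _ _ => ⟨hj, hj1, hj2⟩⟩
    · exact ⟨0, fun h2 h3 => absurd ⟨h2, h3⟩ h1⟩
  choose jj hjj using hclass
  obtain ⟨k, hk, k', hk', hne, hjk⟩ := Finset.exists_ne_map_eq_of_card_lt_of_maps_to
    (s := Finset.Ico k₁ (2 * k₁)) (t := Finset.range J) (by simp; omega) (f := jj) (by
      intro k hk
      have h1 := Finset.mem_Ico.1 hk
      exact Finset.mem_coe.2 (Finset.mem_range.2 (hjj k h1.1 h1.2).1))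
  obtain ⟨hk1, hk2⟩ := Finset.mem_Ico.1 hk
  obtain ⟨hk1', hk2'⟩ := Finset.mem_Ico.1 hk'
  obtain ⟨g1, g2, g3⟩ := hAB k hk1 hk2
  obtain ⟨g1', g2', g3'⟩ := hAB k' hk1' hk2'
  obtain ⟨-, l1, l2⟩ := hjj k hk1 hk2
  obtain ⟨-, l1', l2'⟩ := hjj k' hk1' hk2'
  rw [← hjk] at l1' l2'
  have hNk := hNlow k hk1
  have hNk' := hNlow k' hk1'
  have hMk := hNup k hk2
  have hMk' := hNup k' hk2'
  have hq1 := hAq k hk1 hk2
  have hq1' := hAq k' hk1' hk2'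
  have hd := hdetk k
  have hd' := hdetk k'
  have hp1 := hNpos k hk1
  have hp1' := hNpos k' hk1'
  -- the difference of the two candidates
  have hdd : ((k : ℤ) * p₀ + p') * ((k' : ℤ) * q₀ + q') - ((k' : ℤ) * p₀ + p') * ((k : ℤ) * q₀ + q') = k' - k := by
    linear_combination ((k' : ℤ) - k) * hdet
  have hdne : ((k : ℤ) * p₀ + p') * ((k' : ℤ) * q₀ + q') ≠ ((k' : ℤ) * p₀ + p') * ((k : ℤ) * q₀ + q') := by
    intro h0
    rw [h0, sub_self] at hdd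
    exact hne (by omega)
  have hlowd := rat_sep hp1 hp1' hdne
  generalize AB k = w at g1 g2 g3 l1 l2 hq1
  generalize AB k' = w' at g1' g2' g3' l1' l2' hq1'
  obtain ⟨A, B⟩ := w
  obtain ⟨A', B'⟩ := w'
  simp only at g1 g2 g3 g1' g2' g3' l1 l2 l1' l2' hq1 hq1'
  clear hAB hjj hAq hNlow hNup hNpos hdetk hcon
  generalize (k : ℤ) * p₀ + p' = P at *
  generalize (k : ℤ) * q₀ + q' = N at *
  generalize (k' : ℤ) * p₀ + p' = P' at *
  generalize (k' : ℤ) * q₀ + q' = N' at *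
  have hA : (0 : ℝ) < A := by exact_mod_cast g1.1
  have hA' : (0 : ℝ) < A' := by exact_mod_cast g1'.1
  have hN : (0 : ℝ) < N := by exact_mod_cast hp1
  have hN' : (0 : ℝ) < N' := by exact_mod_cast hp1'
  have h2j : (2 : ℝ) ^ (jj k + 1) = 2 * 2 ^ jj k := by ring
  have hAA : (A : ℝ) ≤ 2 * A' := by rw [h2j] at l2; linarith
  have hAA' : (A' : ℝ) ≤ 2 * A := by rw [h2j] at l2'; linarith
  -- both candidates lie in a short interval
  have hclu : |(P : ℝ) / N - P' / N'| ≤ 1 / (k₁ * (q₀ : ℝ) ^ 2) := by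
    have e1 : (P : ℝ) / N - p₀ / q₀ = 1 / (q₀ * N) := by
      have : (P : ℝ) * q₀ - p₀ * N = 1 := by exact_mod_cast hd
      field_simp; linarith
    have e2 : (P' : ℝ) / N' - p₀ / q₀ = 1 / (q₀ * N') := by
      have : (P' : ℝ) * q₀ - p₀ * N' = 1 := by exact_mod_cast hd'
      field_simp; linarith
    have e3 : (P : ℝ) / N - P' / N' = 1 / (q₀ * N) - 1 / (q₀ * N') := by rw [← e1, ← e2]; ring
    have e4 : 1 / ((q₀ : ℝ) * N) ≤ 1 / (k₁ * (q₀ : ℝ) ^ 2) := by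
      apply one_div_le_one_div_of_le (by positivity)
      calc (k₁ : ℝ) * (q₀ : ℝ) ^ 2 = q₀ * (k₁ * q₀) := by ring
        _ ≤ _ := by gcongr
    have e5 : 1 / ((q₀ : ℝ) * N') ≤ 1 / (k₁ * (q₀ : ℝ) ^ 2) := by
      apply one_div_le_one_div_of_le (by positivity)
      calc (k₁ : ℝ) * (q₀ : ℝ) ^ 2 = q₀ * (k₁ * q₀) := by ring
        _ ≤ _ := by gcongr
    have e6 : 0 < 1 / ((q₀ : ℝ) * N) := by positivity
    have e7 : 0 < 1 / ((q₀ : ℝ) * N') := by positivity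
    rw [e3, abs_le]
    constructor <;> linarith
  by_cases hX : (B : ℝ) / (2 * A) = B' / (2 * A')
  · -- the same hexagonal abscissa
    have h1 : |(P : ℝ) / N - P' / N'| < 2 * ε / A + 2 * ε / A' := by
      have e1 : (P : ℝ) / N - P' / N' = ((P : ℝ) / N - B / (2 * A)) - ((P' : ℝ) / N' - B' / (2 * A')) := by
        rw [hX]; ring
      rw [e1]
      exact (abs_sub _ _).trans_lt (add_lt_add g3 g3')
    have h2 : ∀ M : ℝ, 0 < M → a < M * r → 2 * ε / M < 2 * ε * r / a := by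
      intro M hM hMa
      rw [div_lt_div_iff₀ hM ha0]
      have : 2 * ε * a < 2 * ε * (M * r) := by gcongr
      linarith
    have h3 : 1 / ((N : ℝ) * N') < 4 * ε * r / a := by
      refine hlowd.trans_lt (h1.trans_le ?_)
      have e1 := h2 A hA g2
      have e2 := h2 A' hA' g2'
      have e3 : 4 * ε * r / a = 2 * ε * r / a + 2 * ε * r / a := by ring
      linarith
    have h4 : (N : ℝ) * N' ≤ 4 * k₁ ^ 2 * (q₀ : ℝ) ^ 2 := by
      calc (N : ℝ) * N' ≤ (2 * k₁ * q₀) * (2 * k₁ * q₀) := by gcongr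
        _ = _ := by ring
    have h5 : a < 16 * ε * k₁ ^ 2 * ((q₀ : ℝ) ^ 2 * r) := by
      rw [div_lt_div_iff₀ (by positivity) ha0, one_mul] at h3
      calc a < 4 * ε * r * (N * N') := h3
        _ ≤ 4 * ε * r * (4 * k₁ ^ 2 * (q₀ : ℝ) ^ 2) := by gcongr
        _ = _ := by ring
    have h6 : 16 * ε * k₁ ^ 2 * ((q₀ : ℝ) ^ 2 * r) ≤ 16 * ε * k₁ ^ 2 * (4 / κ ^ 2) := by gcongr
    have h7 : 16 * ε * k₁ ^ 2 * (4 / κ ^ 2) = 64 * ε * k₁ ^ 2 / κ ^ 2 := by ring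
    linarith
  · -- distinct abscissas in the same class
    have h1 : |(B : ℝ) / (2 * A) - B' / (2 * A')| < 2 * ε / A + 2 * ε / A' + 1 / (k₁ * (q₀ : ℝ) ^ 2) := by
      have e1 : (B : ℝ) / (2 * A) - B' / (2 * A') = ((P : ℝ) / N - P' / N') -
          (((P : ℝ) / N - B / (2 * A)) - ((P' : ℝ) / N' - B' / (2 * A'))) := by ring
      rw [e1]
      have e2 := abs_sub ((P : ℝ) / N - P' / N') (((P : ℝ) / N - B / (2 * A)) - ((P' : ℝ) / N' - B' / (2 * A')))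
      have e3 := abs_sub ((P : ℝ) / N - B / (2 * A)) ((P' : ℝ) / N' - B' / (2 * A'))
      linarith
    have hfin : ∀ M m : ℝ, 0 < M → 0 < m → m ≤ M → M ≤ 2 * m → M < (q₀ : ℝ) ^ 2 →
        1 / M < 2 * ε / M + 2 * ε / m + 1 / (k₁ * (q₀ : ℝ) ^ 2) → False := by
      intro M m hM hm hmM hMm hMq h0
      have e1 : 2 * ε / m ≤ 4 * ε / M := by
        rw [div_le_div_iff₀ hm hM]; nlinarith
      have e2 : 1 / (k₁ * (q₀ : ℝ) ^ 2) ≤ 1 / (3200 * M) := by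
        apply one_div_le_one_div_of_le (by positivity)
        exact mul_le_mul hk₁0 hMq.le hM.le (by positivity)
      have e3 : 1 / M < 2 * ε / M + 4 * ε / M + 1 / (3200 * M) := by linarith
      have e4 : 2 * ε / M + 4 * ε / M + 1 / (3200 * M) = (6 * ε + 1 / 3200) / M := by field_simp; ring
      rw [e4, div_lt_div_iff_of_pos_right hM] at e3
      linarith
    rcases le_total A' A with h | h
    · have h' : (A' : ℝ) ≤ A := by exact_mod_cast h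
      have h3 := hex_sep_hexSet.2 _ ⟨A, B, g1, rfl⟩ _ ⟨A', B', g1', rfl⟩ hX h' hAA
      simp only at h3
      exact hfin A A' hA hA' h' hAA hq1 (h3.trans_lt h1)
    · have h' : (A : ℝ) ≤ A' := by exact_mod_cast h
      have h3 := hex_sep_hexSet.2 _ ⟨A', B', g1', rfl⟩ _ ⟨A, B, g1, rfl⟩ (Ne.symm hX) h' hAA'
      simp only at h3
      rw [abs_sub_comm] at h3
      refine hfin A' A hA' hA h' hAA' hq1' ?_
      have := h3.trans_lt h1
      linarith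

end Pool.Agent.T2H63.DI
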