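import Mathlib

set_option autoImplicit false

open UpperHalfPlane Modular

namespace Pool.Agent.T2H63.DI

/-- reduction of the point `x + i y` to the fundamental domain, in real terms -/
theorem reduce (x y : ℝ) (hy : 0 < y) : ∃ a b c d : ℤ, a * d - b * c = 1 ∧ ∃ u v : ℝ, 0 < v ∧
    1 ≤ u ^ 2 + v ^ 2 ∧ |u| ≤ 1 / 2 ∧ (a : ℝ) * x + b = u * (c * x + d) - v * (c * y) ∧
    (a : ℝ) * y = u * (c * y) + v * (c * x + d) := by
  let z : ℍ := ⟨⟨x, y⟩, hy⟩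
  obtain ⟨g, hg⟩ := ModularGroup.exists_smul_mem_fd z
  have hdet : g 0 0 * g 1 1 - g 0 1 * g 1 0 = 1 := by
    have := g.det_coe
    rwa [Matrix.det_fin_two] at this
  refine ⟨g 0 0, g 0 1, g 1 0, g 1 1, hdet, (g • z).re, (g • z).im, (g • z).im_pos, ?_, ?_, ?_⟩
  · have h1 := hg.1
    rw [Complex.normSq_apply] at h1
    have h2 : ((g • z : ℍ) : ℂ).re = (g • z).re := rfl
    have h3 : ((g • z : ℍ) : ℂ).im = (g • z).im := rfl
    rw [h2, h3] at h1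
    nlinarith
  · exact hg.2
  · have h1 := coe_specialLinearGroup_apply g z
    have hz : (z : ℂ) = ⟨x, y⟩ := rfl
    have hD : ((algebraMap ℤ ℝ (g 1 0) : ℝ) : ℂ) * (z : ℂ) + ((algebraMap ℤ ℝ (g 1 1) : ℝ) : ℂ) ≠ 0 := by
      intro h0
      rw [hz] at h0
      have hi := congrArg Complex.im h0
      have hr := congrArg Complex.re h0
      simp at hi hr
      rcases hi with hi | hi
      · rw [hi] at hr hdet
        simp at hr
        rw [hr] at hdet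
        simp at hdet
      · exact hy.ne' hi
    rw [eq_div_iff hD] at h1
    generalize g • z = w at h1 ⊢
    have hw : (w : ℂ) = ⟨w.re, w.im⟩ := rfl
    rw [hw, hz] at h1
    have hr := congrArg Complex.re h1
    have hi := congrArg Complex.im h1
    simp at hr hi
    constructor
    · linarith
    · linarith

theorem abs_two_mul_le (X Y : ℝ) : |2 * X * Y| ≤ X ^ 2 + Y ^ 2 := by
  rw [abs_le]; constructor <;> nlinarith [sq_nonneg (X + Y), sq_nonneg (X - Y)]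

theorem abs_sq_sub_le (X Y : ℝ) : |X ^ 2 - Y ^ 2| ≤ X ^ 2 + Y ^ 2 := by
  rw [abs_le]; constructor <;> nlinarith [sq_nonneg X, sq_nonneg Y]

theorem small_est {v τ m : ℝ} (hv : 0 < v) (hτ : 0 < τ) (hτ1 : τ ≤ 1 / 2) (hm0 : 0 ≤ m) (hm1 : m ≤ 1 / 2)
    (hv2 : v ^ 2 ≤ 3 / 4 * (1 + τ) ^ 2) (hv3 : 1 ≤ m ^ 2 + v ^ 2) :
    v ^ 2 - 3 / 4 ≤ 2 * τ ∧ 1 / 2 - m ≤ 4 * τ ∧ 0.86 ≤ v ∧ v ≤ 1.33 ∧
      -(4 * τ) ≤ m ^ 2 - v ^ 2 - m + 1 ∧ m ^ 2 - v ^ 2 - m + 1 ≤ 4 * τ := by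
  have h1 : v ^ 2 - 3 / 4 ≤ 2 * τ := by nlinarith
  have h2 : 1 / 2 - m ≤ 4 * τ := by
    have h3 : (1 / 2 - m) * (1 - (1 / 2 - m)) ≤ 2 * τ := by nlinarith
    nlinarith
  refine ⟨h1, h2, ?_, ?_, ?_, ?_⟩
  · by_contra h3
    push Not at h3
    nlinarith
  · by_contra h3
    push Not at h3
    nlinarith
  · nlinarith
  · nlinarith

/-- the criterion in real terms: the vertical geodesic to `x` avoids the hexagonal points -/
theorem crit_aux {x ε τ y : ℝ} (hy : 0 < y) (hτ : 0 < τ) (hτ1 : τ ≤ 1 / 2) (hτε : 40 * τ ≤ ε)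
    (h : ∀ A B C : ℤ, 0 < A → B ^ 2 + 3 = 4 * A * C → ε ≤ |2 * (A : ℝ) * x - B|) :
    ∃ p q : ℤ, (p, q) ≠ (0, 0) ∧
      ((p : ℝ) + q * x) ^ 2 / y + (q : ℝ) ^ 2 * y ≤ (2 / Real.sqrt 3) / (1 + τ) := by
  obtain ⟨a, b, c, d, hdet, u, v, hv, huv, hu, e1, e2⟩ := reduce x y hy
  have hdet' : (a : ℝ) * d - b * c = 1 := by exact_mod_cast hdet
  have hs3 : 0 < Real.sqrt 3 := by positivity
  have hs3' : Real.sqrt 3 ^ 2 = 3 := Real.sq_sqrt (by norm_num)
  have hkey : v * (((c : ℝ) * x + d) ^ 2 + (c * y) ^ 2) = y := by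
    have : (a : ℝ) * y * (c * x + d) - (a * x + b) * (c * y) = y * (a * d - b * c) := by ring
    rw [hdet', e1, e2] at this
    nlinarith
  have hne : (d, c) ≠ ((0 : ℤ), (0 : ℤ)) := by
    intro h0
    simp only [Prod.mk.injEq] at h0
    rw [h0.1, h0.2] at hdet
    simp at hdet
  have hN : ((d : ℝ) + c * x) ^ 2 / y + (c : ℝ) ^ 2 * y = 1 / v := by
    rw [eq_div_iff hv.ne', div_add' _ _ _ hy.ne', div_mul_eq_mul_div, div_eq_iff hy.ne']
    nlinarith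
  by_cases hbig : Real.sqrt 3 / 2 * (1 + τ) ≤ v
  · refine ⟨d, c, hne, ?_⟩
    rw [hN]
    have h1 : 0 < Real.sqrt 3 / 2 * (1 + τ) := by positivity
    calc 1 / v ≤ 1 / (Real.sqrt 3 / 2 * (1 + τ)) := one_div_le_one_div_of_le h1 hbig
      _ = (2 / Real.sqrt 3) / (1 + τ) := by field_simp
  · exfalso
    push Not at hbig
    -- the sign
    obtain ⟨s, hs, hsu⟩ : ∃ s : ℤ, (s = 1 ∨ s = -1) ∧ (s : ℝ) * u = |u| := by
      rcases le_total 0 u with h0 | h0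
      · exact ⟨1, Or.inl rfl, by rw [abs_of_nonneg h0]; simp⟩
      · exact ⟨-1, Or.inr rfl, by rw [abs_of_nonpos h0]; simp⟩
    have hs2 : (s : ℝ) ^ 2 = 1 := by rcases hs with rfl | rfl <;> norm_num
    have hs2' : s ^ 2 = 1 := by rcases hs with rfl | rfl <;> norm_num
    have hA : 0 < a ^ 2 - s * a * c + c ^ 2 := by
      have h4 : 0 < 4 * (a ^ 2 - s * a * c + c ^ 2) := by
        have : 4 * (a ^ 2 - s * a * c + c ^ 2) = (2 * a - s * c) ^ 2 + 3 * c ^ 2 := by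
          linear_combination (-c ^ 2) * hs2'
        rw [this]
        rcases eq_or_ne c 0 with h0 | h0
        · subst h0
          have ha : a ≠ 0 := by rintro rfl; simp at hdet
          have : 0 < a ^ 2 := by positivity
          nlinarith
        · have : 0 < c ^ 2 := by positivity
          have := sq_nonneg (2 * a - s * c)
          nlinarith
      linarith
    have hdisc : (-(2 * a * b - s * (a * d + b * c) + 2 * c * d)) ^ 2 + 3 =
        4 * (a ^ 2 - s * a * c + c ^ 2) * (b ^ 2 - s * b * d + d ^ 2) := by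
      have h1 : (-(2 * a * b - s * (a * d + b * c) + 2 * c * d)) ^ 2 + 3 * (a * d - b * c) ^ 2 =
        4 * (a ^ 2 - s * a * c + c ^ 2) * (b ^ 2 - s * b * d + d ^ 2) := by
        linear_combination (a * d - b * c) ^ 2 * (hs2')
      rw [hdet] at h1
      linarith
    have hlow := h _ _ _ hA hdisc
    -- estimates for `W = w ^ 2 - s w + 1`
    obtain ⟨m, hm⟩ : ∃ m : ℝ, m = |u| := ⟨_, rfl⟩
    have hm0 : 0 ≤ m := hm ▸ abs_nonneg u
    have hm1 : m ≤ 1 / 2 := hm ▸ hu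
    have hmu : m ^ 2 = u ^ 2 := by rw [hm, sq_abs]
    rw [← hm] at hsu
    have hv2 : v ^ 2 ≤ 3 / 4 * (1 + τ) ^ 2 := by
      have : v ^ 2 ≤ (Real.sqrt 3 / 2 * (1 + τ)) ^ 2 := by gcongr
      calc v ^ 2 ≤ (Real.sqrt 3 / 2 * (1 + τ)) ^ 2 := this
        _ = Real.sqrt 3 ^ 2 / 4 * (1 + τ) ^ 2 := by ring
        _ = _ := by rw [hs3']
    have hv3 : 1 ≤ m ^ 2 + v ^ 2 := by rw [hmu]; exact huv
    obtain ⟨hv2', hh, hvlow, hvup, hre1, hre2⟩ := small_est hv hτ hτ1 hm0 hm1 hv2 hv3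
    have hre : |u ^ 2 - v ^ 2 - s * u + 1| ≤ 4 * τ := by
      rw [hsu, ← hmu, abs_le]
      exact ⟨hre1, hre2⟩
    have him : |2 * u * v - s * v| ≤ 11 * τ := by
      have h1 : |2 * u * v - s * v| = v * (1 - 2 * m) := by
        have h2 : 2 * u * v - s * v = (s : ℝ) * (v * (2 * m - 1)) := by
          rw [← hsu]; linear_combination (-2 * u * v) * hs2
        rw [h2, abs_mul]
        have h3 : |(s : ℝ)| = 1 := by rcases hs with rfl | rfl <;> norm_num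
        rw [h3, one_mul, abs_mul, abs_of_pos hv, abs_of_nonpos (by linarith)]
        ring
      rw [h1]
      have h4 : v * (1 - 2 * m) ≤ 1.33 * (8 * τ) := mul_le_mul hvup (by linarith) (by linarith) (by norm_num)
      linarith
    -- the imaginary part
    have hD0 : 0 ≤ ((c : ℝ) * x + d) ^ 2 + (c * y) ^ 2 := by positivity
    have hDpos : 0 < ((c : ℝ) * x + d) ^ 2 + (c * y) ^ 2 := by
      rcases hD0.lt_or_eq with h1 | h1
      · exact h1
      · rw [← h1] at hkey; linarith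
    have himag : y * (2 * ((a ^ 2 - s * a * c + c ^ 2 : ℤ) : ℝ) * x -
        ((-(2 * a * b - s * (a * d + b * c) + 2 * c * d) : ℤ) : ℝ)) =
        2 * (c * x + d) * (c * y) * (u ^ 2 - v ^ 2 - s * u + 1) +
        ((c * x + d) ^ 2 - (c * y) ^ 2) * (2 * u * v - s * v) := by
      push_cast
      have h1 : y * (2 * ((a : ℝ) ^ 2 - s * a * c + c ^ 2) * x -
        (-(2 * a * b - s * (a * d + b * c) + 2 * c * d))) =
        2 * (a * x + b) * (a * y) - s * ((a * x + b) * (c * y) + (a * y) * (c * x + d)) +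
          2 * (c * x + d) * (c * y) := by ring
      rw [h1, e1, e2]
      ring
    have hfin : y * |2 * ((a ^ 2 - s * a * c + c ^ 2 : ℤ) : ℝ) * x -
        ((-(2 * a * b - s * (a * d + b * c) + 2 * c * d) : ℤ) : ℝ)| ≤
        (((c : ℝ) * x + d) ^ 2 + (c * y) ^ 2) * (15 * τ) := by
      rw [← abs_of_pos hy, ← abs_mul, himag, abs_of_pos hy]
      have t1 : |2 * ((c : ℝ) * x + d) * (c * y)| ≤ ((c : ℝ) * x + d) ^ 2 + (c * y) ^ 2 := by
        exact abs_two_mul_le _ _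
      have t2 : |((c : ℝ) * x + d) ^ 2 - (c * y) ^ 2| ≤ ((c : ℝ) * x + d) ^ 2 + (c * y) ^ 2 := by
        exact abs_sq_sub_le _ _
      calc _ ≤ |2 * ((c : ℝ) * x + d) * (c * y) * (u ^ 2 - v ^ 2 - s * u + 1)| +
            |(((c : ℝ) * x + d) ^ 2 - (c * y) ^ 2) * (2 * u * v - s * v)| := abs_add_le _ _
        _ ≤ (((c : ℝ) * x + d) ^ 2 + (c * y) ^ 2) * (4 * τ) +
            (((c : ℝ) * x + d) ^ 2 + (c * y) ^ 2) * (11 * τ) := by
          refine add_le_add ?_ ?_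
          · rw [abs_mul]; exact mul_le_mul t1 hre (abs_nonneg _) hD0
          · rw [abs_mul]; exact mul_le_mul t2 him (abs_nonneg _) hD0
        _ = _ := by ring
    have h5 : y * ε ≤ (((c : ℝ) * x + d) ^ 2 + (c * y) ^ 2) * (15 * τ) :=
      (mul_le_mul_of_nonneg_left hlow hy.le).trans hfin
    have h6 : v * ε ≤ 15 * τ := by
      have h7 : (((c : ℝ) * x + d) ^ 2 + (c * y) ^ 2) * (v * ε) ≤
          (((c : ℝ) * x + d) ^ 2 + (c * y) ^ 2) * (15 * τ) := by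
        refine le_trans (le_of_eq ?_) h5
        have : (((c : ℝ) * x + d) ^ 2 + (c * y) ^ 2) * (v * ε) = (v * (((c : ℝ) * x + d) ^ 2 + (c * y) ^ 2)) * ε := by ring
        rw [this, hkey]
      exact le_of_mul_le_mul_left h7 hDpos
    have h8 : 0.86 * (40 * τ) ≤ v * ε := mul_le_mul hvlow hτε (by linarith) hv.le
    linarith

/-- the condition for `DI_2` -/
theorem crit {x ε : ℝ} (hε : 0 < ε)
    (h : ∀ A B C : ℤ, 0 < A → B ^ 2 + 3 = 4 * A * C → ε ≤ |2 * (A : ℝ) * x - B|) :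
    ∃ c : ℝ, 0 < c ∧ c < 1 ∧ ∀ t : ℝ, 0 < t → ∃ p q : ℤ, (p, q) ≠ (0, 0) ∧
      (t * (p + q * x) / c) ^ 2 + (q / t) ^ 2 ≤ 2 / Real.sqrt 3 := by
  obtain ⟨τ, hτ⟩ : ∃ τ : ℝ, τ = min (ε / 40) (1 / 2) := ⟨_, rfl⟩
  have hτ0 : 0 < τ := hτ ▸ lt_min (by positivity) (by norm_num)
  have hτ1 : τ ≤ 1 / 2 := hτ ▸ min_le_right _ _
  have hτε : 40 * τ ≤ ε := by
    have : τ ≤ ε / 40 := hτ ▸ min_le_left _ _
    linarith
  obtain ⟨c, hc⟩ : ∃ c : ℝ, c = Real.sqrt (1 / (1 + τ)) := ⟨_, rfl⟩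
  have hc0 : 0 < c := hc ▸ Real.sqrt_pos.2 (by positivity)
  have hc2 : c ^ 2 = 1 / (1 + τ) := hc ▸ Real.sq_sqrt (by positivity)
  have hc1 : c < 1 := by
    have h1 : c ^ 2 < 1 := by
      rw [hc2, div_lt_one (by positivity)]; linarith
    nlinarith
  refine ⟨c, hc0, hc1, fun t ht => ?_⟩
  obtain ⟨p, q, hpq, hN⟩ := crit_aux (x := x) (y := 1 / t ^ 2) (by positivity) hτ0 hτ1 hτε h
  refine ⟨p, q, hpq, ?_⟩
  have h1 : ((p : ℝ) + q * x) ^ 2 / (1 / t ^ 2) + (q : ℝ) ^ 2 * (1 / t ^ 2) =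
      (t * (p + q * x)) ^ 2 + (q / t) ^ 2 := by field_simp
  rw [h1, le_div_iff₀ (by positivity)] at hN
  have h2 : (t * (p + q * x) / c) ^ 2 = (t * (p + q * x)) ^ 2 * (1 + τ) := by
    rw [div_pow, hc2]; field_simp
  rw [h2]
  have h3 : 0 ≤ ((q : ℝ) / t) ^ 2 := by positivity
  nlinarith

end Pool.Agent.T2H63.DI
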