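import Mathlib
import Pool.Agent.T2H63.DI.Choose

set_option autoImplicit false

namespace Pool.Agent.T2H63.DI

theorem final_ball {a κ c ε : ℝ} (ha : a = 1 / 400) (hκs : κ ≤ 1 / 72000) (hκ0 : 0 < κ)
    (hc : c = κ ^ 2 / a) (hε0 : 0 < ε) (hε : ε ≤ 1 / 32) {x r : ℝ} (hg : Good a c ε x r)
    {p₀ q₀ P N : ℤ} (hq₀ : 0 < q₀) (hdet : P * q₀ - p₀ * N = 1) (hN : 3200 * (q₀ : ℝ) ≤ N)
    (hlow : a < (q₀ : ℝ) ^ 2 * r) (hx : |x - p₀ / q₀| ≤ r / 4)
    (hclose : ∀ A B : ℤ, Hex A B → a < A * r → 2 * ε / A ≤ |(P : ℝ) / N - B / (2 * A)|)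
    {ω η r' : ℝ} (hω : 0 < ω) (hωε : 2 * ω ≤ ε) (hω1 : ω ≤ 1 / 6400) (hωη : 2 * ω ≤ η)
    (hr' : (N : ℝ) ^ 2 * r' = ω ^ 2) (hr'1 : r' ≤ 1) :
    ∃ y, Good a c ε y r' ∧ |y - x| + r' ≤ r ∧
      ∀ z, |z - y| ≤ r' → ∃ p q : ℤ, 0 < q ∧ (q : ℝ) * |q * z - p| ≤ η := by
  obtain ⟨hr, hr1, hhex, hrat⟩ := hg
  have ha0 : 0 < a := by rw [ha]; norm_num
  have hq : (0 : ℝ) < q₀ := by exact_mod_cast hq₀
  have hNpos : (0 : ℝ) < N := by linarith
  have hNint : 0 < N := by exact_mod_cast hNpos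
  have hN2 : (0 : ℝ) < (N : ℝ) ^ 2 := by positivity
  have hr'e : r' = ω ^ 2 / (N : ℝ) ^ 2 := by rw [eq_div_iff hN2.ne']; linarith
  have hr'0 : 0 < r' := by rw [hr'e]; positivity
  obtain ⟨δ, hδ⟩ : ∃ δ : ℝ, δ = ω / (N : ℝ) ^ 2 := ⟨_, rfl⟩
  have hδ0 : 0 < δ := by rw [hδ]; positivity
  have hr'δ : 2 * r' ≤ δ := by
    rw [hr'e, hδ, ← mul_div_assoc]
    gcongr
    nlinarith
  obtain ⟨y₀, hy₀⟩ : ∃ y₀ : ℝ, y₀ = (P : ℝ) / N := ⟨_, rfl⟩
  have hNy : (N : ℝ) * y₀ = P := by rw [hy₀]; field_simp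
  obtain ⟨y, hy⟩ : ∃ y : ℝ, y = y₀ + δ + r' := ⟨_, rfl⟩
  have hzd : ∀ z, |z - y| ≤ r' → δ ≤ z - y₀ ∧ z - y₀ ≤ 2 * δ := by
    intro z hz
    rw [abs_le] at hz
    constructor <;> linarith
  -- the new ball lies in the old one
  have hin : |y - x| + r' ≤ r := by
    have e1 : y₀ - p₀ / q₀ = 1 / (q₀ * N) := by
      have : (P : ℝ) * q₀ - p₀ * N = 1 := by exact_mod_cast hdet
      rw [hy₀]; field_simp; linarith
    have e2 : 1 / ((q₀ : ℝ) * N) ≤ r / 8 := by
      rw [div_le_div_iff₀ (by positivity) (by norm_num)]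
      have h1 : (q₀ : ℝ) * (3200 * q₀) ≤ q₀ * N := by gcongr
      have h2 : 1 / 400 < (q₀ : ℝ) ^ 2 * r := by rw [← ha]; exact hlow
      have h3 : r * ((q₀ : ℝ) * (3200 * q₀)) ≤ r * (q₀ * N) := by gcongr
      nlinarith
    have e3 : δ ≤ r / 16 := by
      have h1 : (q₀ : ℝ) ^ 2 ≤ (N : ℝ) ^ 2 := pow_le_pow_left₀ hq.le (by linarith) 2
      have h2 : 1 / 400 < (q₀ : ℝ) ^ 2 * r := by rw [← ha]; exact hlow
      rw [hδ, div_le_div_iff₀ hN2 (by norm_num)]
      have h3 : (q₀ : ℝ) ^ 2 * r ≤ (N : ℝ) ^ 2 * r := by gcongr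
      linarith
    have e4 : y - x = (y₀ - p₀ / q₀) - (x - p₀ / q₀) + δ + r' := by rw [hy]; ring
    have e5 : 0 < 1 / ((q₀ : ℝ) * N) := by positivity
    have e6 := abs_le.1 hx
    have e7 : |y - x| ≤ r / 8 + r / 4 + δ + r' := by
      rw [e4, e1, abs_le]
      constructor <;> linarith [e6.1, e6.2]
    linarith
  have hsub : ∀ z, |z - y| ≤ r' → |z - x| ≤ r := by
    intro z hz
    have := abs_sub_le z y x
    linarith
  refine ⟨y, ⟨hr'0, hr'1, ?_, ?_⟩, hin, ?_⟩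
  · -- hexagonal points
    rintro u ⟨A, B, hAB, rfl⟩ hua z hz
    simp only at hua ⊢
    have hA : (0 : ℝ) < A := by exact_mod_cast hAB.1
    by_cases h1 : (A : ℝ) * r ≤ a
    · exact hhex _ ⟨A, B, hAB, rfl⟩ h1 z (hsub z hz)
    · push Not at h1
      have h2 := hclose A B hAB h1
      rw [← hy₀] at h2
      obtain ⟨hz1, hz2⟩ := hzd z hz
      by_contra hcon
      push Not at hcon
      have h3 : |y₀ - B / (2 * A)| < 2 * δ + ε / A := by
        have e1 : y₀ - B / (2 * A) = (z - B / (2 * A)) - (z - y₀) := by ring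
        rw [e1]
        refine (abs_sub _ _).trans_lt ?_
        rw [abs_of_pos (by linarith : 0 < z - y₀)]
        linarith
      by_cases h4 : (A : ℝ) ≤ (N : ℝ) ^ 2
      · have h5 : 2 * ε / A < 2 * δ + ε / A := lt_of_le_of_lt h2 h3
        have h6 : ε / A < 2 * δ := by
          have : 2 * ε / A = ε / A + ε / A := by ring
          linarith
        rw [hδ, div_lt_iff₀ hA] at h6
        have h7 : 2 * (ω / (N : ℝ) ^ 2) * A ≤ 2 * ω := by
          rw [← mul_div_assoc, div_mul_eq_mul_div, div_le_iff₀ hN2]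
          gcongr
        linarith
      · push Not at h4
        obtain ⟨n, hn, hn2⟩ := hAB.star P N (by intro h0; simp at h0; omega)
        have hn2' : 4 * (A : ℝ) * n = (2 * (A : ℝ) * P - B * N) ^ 2 + 3 * N ^ 2 := by exact_mod_cast hn2
        have hn0 : (1 : ℝ) ≤ n := by exact_mod_cast hn
        have e2 : (A : ℝ) ≤ (2 * (A : ℝ) * P - B * N) ^ 2 := by
          have : 4 * (A : ℝ) ≤ 4 * A * n := le_mul_of_one_le_right (by positivity) hn0
          linarith
        have e3 : |2 * (A : ℝ) * P - B * N| = 2 * A * N * |y₀ - B / (2 * A)| := by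
          rw [← abs_of_pos (by positivity : (0 : ℝ) < 2 * A * N), ← abs_mul]
          congr 1
          rw [hy₀]
          field_simp
        have e4 : |2 * (A : ℝ) * P - B * N| ≤ 4 * A * ω / N + 2 * N * ε := by
          rw [e3]
          calc 2 * (A : ℝ) * N * |y₀ - B / (2 * A)| ≤ 2 * A * N * (2 * δ + ε / A) := by gcongr
            _ = 4 * A * ω / N + 2 * N * ε := by rw [hδ]; field_simp; ring
        have e5 : (A : ℝ) ≤ (4 * A * ω / N + 2 * N * ε) ^ 2 := by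
          refine e2.trans ?_
          rw [← sq_abs]; gcongr
        have e6 : (4 * A * ω / N + 2 * N * ε) ^ 2 =
            16 * A * (A * ω ^ 2 / N ^ 2) + 16 * A * ω * ε + 4 * N ^ 2 * ε ^ 2 := by
          field_simp; ring
        have e7 : (A : ℝ) * ω ^ 2 / N ^ 2 ≤ a := by
          rw [mul_div_assoc, ← hr'e]; exact hua
        have e8 : 16 * (A : ℝ) * (A * ω ^ 2 / N ^ 2) ≤ 16 * A * a := by gcongr
        have e9 : 4 * (N : ℝ) ^ 2 * ε ^ 2 ≤ 4 * A * ε ^ 2 := by gcongr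
        have e10 : (A : ℝ) * 1 ≤ A * (16 * a + 16 * ω * ε + 4 * ε ^ 2) := by
          calc (A : ℝ) * 1 ≤ (4 * A * ω / N + 2 * N * ε) ^ 2 := by rw [mul_one]; exact e5
            _ ≤ 16 * A * a + 16 * A * ω * ε + 4 * A * ε ^ 2 := by rw [e6]; linarith
            _ = _ := by ring
        have e11 := le_of_mul_le_mul_left e10 hA
        rw [ha] at e11
        nlinarith
  · -- rational points
    intro p q hq' hqa z hz
    have hq1 : (0 : ℝ) < q := by exact_mod_cast hq'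
    obtain ⟨hz1, hz2⟩ := hzd z hz
    have hc1 : c ≤ 1 := by
      rw [hc, ha, div_le_iff₀ (by norm_num)]; nlinarith
    have hc0 : 0 < c := by rw [hc]; positivity
    obtain ⟨d, hd⟩ : ∃ d : ℝ, d = z - y₀ := ⟨_, rfl⟩
    rw [← hd] at hz1 hz2
    have hzy : z = y₀ + d := by rw [hd]; ring
    by_cases h1 : p * N = q * P
    · -- the rational is `P / N`
      have hcop : IsCoprime N P := ⟨-p₀, q₀, by linear_combination hdet⟩
      have hdvd : N ∣ q := by
        have h2 : N ∣ q * P := ⟨p, by rw [← h1]; ring⟩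
        exact hcop.dvd_of_dvd_mul_right h2
      have hNq : N ≤ q := Int.le_of_dvd hq' hdvd
      have hNq' : (N : ℝ) ≤ q := by exact_mod_cast hNq
      have h3 : (q : ℝ) * z - p = q * d := by
        have h4 : (p : ℝ) * N = q * P := by exact_mod_cast h1
        have h5 : (q : ℝ) * y₀ = p := by
          rw [hy₀, ← mul_div_assoc, ← h4]; field_simp
        rw [hzy, mul_add, h5]; ring
      rw [h3]
      have hNδ : ((N : ℝ) * δ) ^ 2 = r' := by
        rw [hδ, hr'e]; field_simp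
      calc c * r' ≤ 1 * r' := by gcongr
        _ = ((N : ℝ) * δ) ^ 2 := by rw [hNδ, one_mul]
        _ ≤ _ := by gcongr
    · -- a different rational
      have h2 : (1 : ℤ) ≤ |p * N - q * P| := Int.one_le_abs (sub_ne_zero.2 h1)
      have h2' : (1 : ℝ) ≤ |(p : ℝ) * N - q * P| := by exact_mod_cast h2
      have h3 : (p : ℝ) * N - q * P = N * (q * d) - N * (q * z - p) := by
        rw [hzy, ← hNy]; ring
      -- q d is small
      have h4 : (q : ℝ) * ω ≤ N / 20 := by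
        have h5 : ((q : ℝ) * ω) ^ 2 ≤ (N / 20) ^ 2 := by
          have h6 : (q : ℝ) ^ 2 * ω ^ 2 ≤ a * N ^ 2 := by
            rw [← hr']
            calc (q : ℝ) ^ 2 * (N ^ 2 * r') = (q ^ 2 * r') * N ^ 2 := by ring
              _ ≤ a * N ^ 2 := by gcongr
          rw [mul_pow]
          rw [ha] at h6
          nlinarith
        exact (pow_le_pow_iff_left₀ (by positivity) (by positivity) two_ne_zero).1 h5
      have h7 : (N : ℝ) * (q * d) ≤ 1 / 10 := by
        calc (N : ℝ) * (q * d) ≤ N * (q * (2 * δ)) := by gcongr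
          _ = 2 * (q * ω) / N := by rw [hδ]; field_simp
          _ ≤ 2 * (N / 20) / N := by gcongr
          _ = 1 / 10 := by field_simp; norm_num
      have h8 : 1 / 2 ≤ (N : ℝ) * |(q : ℝ) * z - p| := by
        have h9 : (1 : ℝ) ≤ |(N : ℝ) * (q * d)| + |(N : ℝ) * (q * z - p)| := by
          refine h2'.trans ?_
          rw [h3]; exact abs_sub _ _
        have hd0 : 0 < d := by linarith
        rw [abs_of_pos (by positivity : (0 : ℝ) < N * (q * d)), abs_mul, abs_of_pos hNpos] at h9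
        linarith
      have h10 : (1 / 2 : ℝ) ^ 2 ≤ (N * |(q : ℝ) * z - p|) ^ 2 := by gcongr
      rw [mul_pow, sq_abs] at h10
      have h11 : (N : ℝ) ^ 2 * (c * r') ≤ N ^ 2 * ((q : ℝ) * z - p) ^ 2 := by
        refine le_trans ?_ h10
        have h12 : (N : ℝ) ^ 2 * (c * r') = c * (N ^ 2 * r') := by ring
        rw [h12, hr']
        nlinarith
      exact le_of_mul_le_mul_left h11 hN2
  · intro z hz
    obtain ⟨hz1, hz2⟩ := hzd z hz
    refine ⟨P, N, hNint, ?_⟩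
    have h1 : (N : ℝ) * z - P = N * (z - y₀) := by rw [← hNy]; ring
    rw [h1, abs_mul, abs_of_pos hNpos, abs_of_pos (by linarith : 0 < z - y₀)]
    calc (N : ℝ) * (N * (z - y₀)) ≤ N * (N * (2 * δ)) := by gcongr
      _ = 2 * ω := by rw [hδ]; field_simp
      _ ≤ η := hωη

end Pool.Agent.T2H63.DI
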