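import Mathlib
import Pool.Agent.T2H63.DI.Final

set_option autoImplicit false

namespace Pool.Agent.T2H63.DI

theorem special_step {a κ c ε : ℝ} (ha : a = 1 / 400) (hκ0 : 0 < κ) (hκs : κ ≤ 1 / 72000)
    (hc : c = κ ^ 2 / a) {J k₁ : ℕ} (hJ : 4 / κ ^ 2 ≤ 2 ^ J * a) (hk₁ : J < k₁) (hk₁' : 3200 ≤ k₁)
    (hε0 : 0 < ε) (hε : ε ≤ 1 / 32) (hε2 : 64 * ε * k₁ ^ 2 / κ ^ 2 ≤ a) {η : ℝ} (hη : 0 < η) :
    ∃ S₀ : ℝ, 1 ≤ S₀ ∧ ∀ S, S₀ ≤ S → ∀ x r, Good a c ε x r →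
      ∃ y, Good a c ε y (r / S) ∧ |y - x| + r / S ≤ r ∧
        ∀ z, |z - y| ≤ r / S → ∃ p q : ℤ, 0 < q ∧ (q : ℝ) * |q * z - p| ≤ η := by
  obtain ⟨ω₀, hω₀⟩ : ∃ ω₀ : ℝ, ω₀ = min (ε / 2) (min (η / 2) (1 / 6400)) := ⟨_, rfl⟩
  have hω₀0 : 0 < ω₀ := by rw [hω₀]; positivity
  have hω₀1 : ω₀ ≤ ε / 2 := by rw [hω₀]; exact min_le_left _ _
  have hω₀2 : ω₀ ≤ η / 2 := by rw [hω₀]; exact (min_le_right _ _).trans (min_le_left _ _)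
  have hω₀3 : ω₀ ≤ 1 / 6400 := by rw [hω₀]; exact (min_le_right _ _).trans (min_le_right _ _)
  refine ⟨max 1 ((4 * k₁ / (κ * ω₀)) ^ 2), le_max_left _ _, fun S hS x r hg => ?_⟩
  have hS1 : 1 ≤ S := (le_max_left _ _).trans hS
  have hS2 : (4 * k₁ / (κ * ω₀)) ^ 2 ≤ S := (le_max_right _ _).trans hS
  have hS0 : 0 < S := by linarith
  have hr := hg.1
  have hr1 := hg.2.1
  obtain ⟨p₀, q₀, hq₀, hcop, hlow, hup, hx⟩ := dirichlet_step ha hκ0 hκs hc hg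
  obtain ⟨p', q', hq'0, hq'1, hdet⟩ := farey hq₀ hcop
  obtain ⟨k, hk1, hk2, hclose⟩ := choose_k ha hκ0 hJ hk₁ hk₁' hε0 hε hε2 hr hq₀ hq'0 hq'1 hdet hlow hup
  obtain ⟨P, hP⟩ : ∃ P : ℤ, P = (k : ℤ) * p₀ + p' := ⟨_, rfl⟩
  obtain ⟨N, hN⟩ : ∃ N : ℤ, N = (k : ℤ) * q₀ + q' := ⟨_, rfl⟩
  rw [← hP, ← hN] at hclose
  have hdet' : P * q₀ - p₀ * N = 1 := by rw [hP, hN]; linear_combination hdet
  have hq : (0 : ℝ) < q₀ := by exact_mod_cast hq₀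
  have hN1 : 3200 * (q₀ : ℝ) ≤ N := by
    have h1 : 3200 * q₀ ≤ N := by
      have : (3200 : ℤ) * q₀ ≤ k * q₀ := by
        have : (3200 : ℤ) ≤ k := by exact_mod_cast (by omega : 3200 ≤ k)
        gcongr
      omega
    exact_mod_cast h1
  have hN2 : (N : ℝ) ≤ 2 * k₁ * q₀ := by
    have h1 : N ≤ 2 * (k₁ : ℤ) * q₀ := by
      have : ((k : ℤ) + 1) * q₀ ≤ (2 * (k₁ : ℤ)) * q₀ := by gcongr; omega
      linarith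
    exact_mod_cast h1
  have hN0 : (0 : ℝ) < N := by linarith
  have hrS : 0 < r / S := by positivity
  obtain ⟨ω, hω⟩ : ∃ ω : ℝ, ω = N * Real.sqrt (r / S) := ⟨_, rfl⟩
  have hωpos : 0 < ω := by rw [hω]; positivity
  have hω2 : (N : ℝ) ^ 2 * (r / S) = ω ^ 2 := by rw [hω, mul_pow, Real.sq_sqrt hrS.le]
  have hωle : ω ≤ ω₀ := by
    have h1 : ω ^ 2 ≤ ω₀ ^ 2 := by
      rw [← hω2]
      have h2 : (N : ℝ) ^ 2 * r ≤ (4 * k₁ / κ) ^ 2 := by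
        calc (N : ℝ) ^ 2 * r ≤ (2 * k₁ * q₀) ^ 2 * r := by gcongr
          _ = 4 * k₁ ^ 2 * (q₀ ^ 2 * r) := by ring
          _ ≤ 4 * k₁ ^ 2 * (4 / κ ^ 2) := by gcongr
          _ = (4 * k₁ / κ) ^ 2 := by ring
      have h3 : (4 * k₁ / κ) ^ 2 = (4 * k₁ / (κ * ω₀)) ^ 2 * ω₀ ^ 2 := by field_simp
      rw [← mul_div_assoc, div_le_iff₀ hS0]
      calc (N : ℝ) ^ 2 * r ≤ (4 * k₁ / (κ * ω₀)) ^ 2 * ω₀ ^ 2 := h2.trans h3.le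
        _ ≤ S * ω₀ ^ 2 := by gcongr
        _ = ω₀ ^ 2 * S := by ring
    exact (pow_le_pow_iff_left₀ hωpos.le hω₀0.le two_ne_zero).1 h1
  have hrS1 : r / S ≤ 1 := by
    rw [div_le_iff₀ hS0]; linarith
  exact final_ball ha hκs hκ0 hc hε0 hε hg hq₀ hdet' hN1 hlow hx hclose hωpos (by linarith)
    (by linarith) (by linarith) hω2 hrS1

end Pool.Agent.T2H63.DI
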