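import Mathlib
import Pool.Agent.T2H63.DI.Normal

set_option autoImplicit false

open Metric

namespace Pool.Agent.T2H63.DI

theorem tree {L : ℕ} (hL : 9 ≤ L) {a κ c ε : ℝ} (ha : a = 1 / 400) (hκ : κ = 1 / (8000 * L))
    (hc : c = κ ^ 2 / a) (hε : 0 < ε) (hεκ : ε ≤ κ) (m : ℕ) : ∀ x r, Good a c ε x r →
    ∃ F : Finset ℝ, F.card = (2 ^ (L - 2)) ^ m ∧ (∀ y ∈ F, Good a c ε y (r / (2 ^ L) ^ m)) ∧
      (∀ y ∈ F, |y - x| + r / (2 ^ L) ^ m ≤ r) ∧
      (∀ y ∈ F, ∀ y' ∈ F, y ≠ y' → 4 * r / (2 ^ L) ^ m ≤ |y - y'|) ∧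
      ∀ (U : Set ℝ) (u : ℝ), (∀ x ∈ U, ∀ y ∈ U, dist x y ≤ u) → ∀ G : Finset ℝ, G ⊆ F →
        (∀ y ∈ G, (U ∩ closedBall y (r / (2 ^ L) ^ m)).Nonempty) →
        ∀ i, 1 ≤ i → i ≤ m → u < 2 * r / (2 ^ L) ^ i → G.card ≤ (2 ^ (L - 2)) ^ (m - i) := by
  classical
  induction m with
  | zero =>
    intro x r hg
    refine ⟨{x}, by simp, ?_, ?_, ?_, ?_⟩
    · intro y hy
      rw [Finset.mem_singleton] at hy
      subst hy; simpa using hg
    · intro y hy
      rw [Finset.mem_singleton] at hy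
      subst hy; simp
    · intro y hy y' hy' hne
      rw [Finset.mem_singleton] at hy hy'
      subst hy; exact absurd hy'.symm hne
    · intro U u hU G hG hGU i hi1 hi2
      omega
  | succ m ih =>
    intro x r hg
    obtain ⟨F₁, hcard, hgood, hin, hsep⟩ := normal_step hL ha hκ hc hε hεκ hg
    have hr := hg.1
    obtain ⟨R, hR⟩ : ∃ R : ℝ, R = 2 ^ L := ⟨_, rfl⟩
    have hR2 : 2 ≤ R := by
      rw [hR]
      calc (2 : ℝ) = 2 ^ 1 := by norm_num
        _ ≤ 2 ^ L := pow_le_pow_right₀ (by norm_num) (by omega)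
    have hR0 : 0 < R := by linarith
    rw [← hR] at hgood hin hsep
    have ih' : ∀ y, ∃ F : Finset ℝ, y ∈ F₁ → F.card = (2 ^ (L - 2)) ^ m ∧
      (∀ z ∈ F, Good a c ε z (r / R / (2 ^ L) ^ m)) ∧
      (∀ z ∈ F, |z - y| + r / R / (2 ^ L) ^ m ≤ r / R) ∧
      (∀ z ∈ F, ∀ z' ∈ F, z ≠ z' → 4 * (r / R) / (2 ^ L) ^ m ≤ |z - z'|) ∧
      ∀ (U : Set ℝ) (u : ℝ), (∀ x ∈ U, ∀ y ∈ U, dist x y ≤ u) → ∀ G : Finset ℝ, G ⊆ F →
        (∀ z ∈ G, (U ∩ closedBall z (r / R / (2 ^ L) ^ m)).Nonempty) →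
        ∀ i, 1 ≤ i → i ≤ m → u < 2 * (r / R) / (2 ^ L) ^ i → G.card ≤ (2 ^ (L - 2)) ^ (m - i) := by
      intro y
      by_cases hy : y ∈ F₁
      · obtain ⟨F, hF⟩ := ih y (r / R) (hgood y hy)
        exact ⟨F, fun _ => hF⟩
      · exact ⟨∅, fun h => absurd h hy⟩
    choose Fy hFy using ih'
    rw [← hR] at hFy ⊢
    have hRm : 0 < R ^ m := by positivity
    have hRm1 : 1 ≤ R ^ m := one_le_pow₀ (by linarith)
    have hrR : 0 < r / R := by positivity
    have erad : r / R ^ (m + 1) = r / R / R ^ m := by rw [pow_succ, div_div, mul_comm]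
    have erad4 : 4 * r / R ^ (m + 1) = 4 * (r / R) / R ^ m := by
      rw [pow_succ]; field_simp
    have hcard' : ∀ y ∈ F₁, (Fy y).card = (2 ^ (L - 2)) ^ m := fun y hy => (hFy y hy).1
    -- distance between points in different cells
    have hfar : ∀ y ∈ F₁, ∀ y' ∈ F₁, y ≠ y' → ∀ z ∈ Fy y, ∀ z' ∈ Fy y',
        2 * (r / R) + 2 * (r / R / R ^ m) ≤ |z - z'| := by
      intro y hy y' hy' hne z hz z' hz'
      have h1 := hsep y hy y' hy' hne
      have h2 := (hFy y hy).2.2.1 z hz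
      have h3 := (hFy y' hy').2.2.1 z' hz'
      have h4 : |y - y'| ≤ |z - y| + |z - z'| + |z' - y'| := by
        have e1 : y - y' = -(z - y) + (z - z') + (z' - y') := by ring
        rw [e1]
        refine (abs_add_le _ _).trans ?_
        gcongr
        refine (abs_add_le _ _).trans ?_
        rw [abs_neg]
      have h5 : 4 * r / R = 4 * (r / R) := by ring
      rw [h5] at h1
      linarith
    have hdisj : ∀ y ∈ F₁, ∀ y' ∈ F₁, y ≠ y' → Disjoint (Fy y) (Fy y') := by
      intro y hy y' hy' hne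
      rw [Finset.disjoint_left]
      intro z hz hz'
      have h1 := hfar y hy y' hy' hne z hz z hz'
      rw [sub_self, abs_zero] at h1
      have : 0 < r / R / R ^ m := by positivity
      linarith
    refine ⟨F₁.biUnion Fy, ?_, ?_, ?_, ?_, ?_⟩
    · rw [Finset.card_biUnion (fun y hy y' hy' hne => hdisj y hy y' hy' hne), Finset.sum_congr rfl hcard',
        Finset.sum_const, hcard, smul_eq_mul, pow_succ, mul_comm]
    · intro z hz
      obtain ⟨y, hy, hzy⟩ := Finset.mem_biUnion.1 hz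
      rw [erad]
      exact (hFy y hy).2.1 z hzy
    · intro z hz
      obtain ⟨y, hy, hzy⟩ := Finset.mem_biUnion.1 hz
      rw [erad]
      have h1 := (hFy y hy).2.2.1 z hzy
      have h2 := hin y hy
      have h3 := abs_sub_le z y x
      linarith
    · intro z hz z' hz' hne
      obtain ⟨y, hy, hzy⟩ := Finset.mem_biUnion.1 hz
      obtain ⟨y', hy', hzy'⟩ := Finset.mem_biUnion.1 hz'
      rw [erad4]
      by_cases h : y = y'
      · subst h
        exact (hFy y hy).2.2.2.1 z hzy z' hzy' hne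
      · have h1 := hfar y hy y' hy' h z hzy z' hzy'
        have h2 : r / R / R ^ m ≤ r / R := div_le_self hrR.le hRm1
        have h3 : 4 * (r / R) / R ^ m = 4 * (r / R / R ^ m) := by ring
        linarith
    · intro U u hU G hG hGU i hi1 hi2 hu
      rw [erad] at hGU
      have hRi : R ≤ R ^ i := by
        calc R = R ^ 1 := (pow_one R).symm
          _ ≤ R ^ i := pow_le_pow_right₀ (by linarith) hi1
      have hu1 : u < 2 * (r / R) := by
        refine hu.trans_le ?_
        rw [← mul_div_assoc]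
        gcongr
      rcases G.eq_empty_or_nonempty with hGe | ⟨z₀, hz₀⟩
      · rw [hGe]; simp
      obtain ⟨y₀, hy₀, hzy₀⟩ := Finset.mem_biUnion.1 (hG hz₀)
      have hGsub : G ⊆ Fy y₀ := by
        intro z hz
        obtain ⟨y, hy, hzy⟩ := Finset.mem_biUnion.1 (hG hz)
        by_cases h : y = y₀
        · subst h; exact hzy
        · exfalso
          have h1 := hfar y hy y₀ hy₀ h z hzy z₀ hzy₀
          obtain ⟨w, hwU, hw⟩ := hGU z hz
          obtain ⟨w₀, hwU₀, hw₀⟩ := hGU z₀ hz₀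
          have h2 := hU w hwU w₀ hwU₀
          rw [mem_closedBall, Real.dist_eq] at hw hw₀
          rw [Real.dist_eq] at h2
          have h3 : |z - z₀| ≤ |w - z| + |w - w₀| + |w₀ - z₀| := by
            have e1 : z - z₀ = -(w - z) + (w - w₀) + (w₀ - z₀) := by ring
            rw [e1]
            refine (abs_add_le _ _).trans ?_
            gcongr
            refine (abs_add_le _ _).trans ?_
            rw [abs_neg]
          linarith
      rcases Nat.eq_or_lt_of_le hi1 with h1 | h1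
      · rw [← h1, Nat.add_sub_cancel, ← hcard' y₀ hy₀]
        exact Finset.card_le_card hGsub
      · have h2 := (hFy y₀ hy₀).2.2.2.2 U u hU G hGsub hGU (i - 1) (by omega) (by omega) (by
          refine hu.trans_le (le_of_eq ?_)
          obtain ⟨i', rfl⟩ : ∃ i', i = i' + 1 := ⟨i - 1, by omega⟩
          rw [Nat.add_sub_cancel, pow_succ]; field_simp)
        have h3 : m - (i - 1) = m + 1 - i := by omega
        rwa [h3] at h2

end Pool.Agent.T2H63.DI
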