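import Mathlib
import Pool.Agent.T2H63.DI.Tree
import Pool.Agent.T2H63.DI.SpecialStep
import Pool.Agent.H438R2.Nest

set_option autoImplicit false

open MeasureTheory Set Metric

namespace Pool.Agent.T2H63.DI

/-- conditions imposed at stage `j` -/
def Vj (ε : ℝ) (j : ℕ) : Set ℝ :=
  {x | (∃ p q : ℤ, 0 < q ∧ (q : ℝ) * |q * x - p| ≤ 1 / (j + 1)) ∧
    ∀ A B : ℤ, Hex A B → (A : ℝ) ≤ j → ε / A ≤ |x - B / (2 * A)|}

theorem count_aux {R M s t ρ u r S : ℝ} {m : ℕ} (hR : 2 ≤ R) (hM : 2 * R ^ s ≤ M) (hs : 0 < s)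
    (hr : 0 < r) (hm : 1 ≤ m) (hS : 1 ≤ S) (hMS : 4 * (R ^ m * S) ^ s ≤ M ^ m) (hu0 : 0 < u)
    (hρ : ρ = r / (R ^ m * S)) (hρu : ρ ≤ u) (ht0 : t ≤ M ^ m)
    (ht : ∀ i, 1 ≤ i → i ≤ m → u < 2 * r / R ^ i → t ≤ M ^ (m - i)) :
    t ≤ M ^ m / (4 * (1 / (4 * M))) * (u / r) ^ s := by
  have hR0 : 0 < R := by linarith
  have hRs : 1 ≤ R ^ s := Real.one_le_rpow (by linarith) hs.le
  have hM2 : 2 ≤ M := by linarith
  have hM0 : 0 < M := by linarith
  have hS0 : 0 < S := by linarith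
  have hconst : M ^ m / (4 * (1 / (4 * M))) = M ^ m * M := by field_simp
  rw [hconst]
  have hur : 0 ≤ u / r := by positivity
  by_cases h1 : u < 2 * r / R ^ m
  · have h2 := ht m hm le_rfl h1
    rw [Nat.sub_self, pow_zero] at h2
    refine h2.trans ?_
    have h3 : 1 / (R ^ m * S) ≤ u / r := by
      rw [div_le_div_iff₀ (by positivity) hr, one_mul]
      rw [hρ, div_le_iff₀ (by positivity)] at hρu
      exact hρu
    have h4 : (1 / (R ^ m * S)) ^ s ≤ (u / r) ^ s := Real.rpow_le_rpow (by positivity) h3 hs.le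
    rw [Real.div_rpow zero_le_one (by positivity), Real.one_rpow] at h4
    have h5 : 0 < (R ^ m * S) ^ s := by positivity
    calc (1 : ℝ) ≤ 4 * M := by linarith
      _ = 4 * (R ^ m * S) ^ s * M * (1 / (R ^ m * S) ^ s) := by field_simp
      _ ≤ M ^ m * M * (u / r) ^ s := by gcongr
  · push Not at h1
    classical
    have hex : ∃ i, 2 * r / R ^ (i + 1) ≤ u := ⟨m - 1, by rwa [Nat.sub_add_cancel hm]⟩
    obtain ⟨i, hi⟩ : ∃ i, i = Nat.find hex := ⟨_, rfl⟩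
    have hi1 : 2 * r / R ^ (i + 1) ≤ u := by rw [hi]; exact Nat.find_spec hex
    have him : i ≤ m - 1 := by
      rw [hi]; exact Nat.find_min' hex (by rwa [Nat.sub_add_cancel hm])
    have hti : t ≤ M ^ (m - i) := by
      rcases Nat.eq_zero_or_pos i with h2 | h2
      · rw [h2, Nat.sub_zero]; exact ht0
      · have h3 := Nat.find_min hex (m := i - 1) (by omega)
        rw [Nat.sub_add_cancel h2] at h3
        exact ht i h2 (by omega) (not_le.1 h3)
    refine hti.trans ?_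
    have h3 : 1 / R ^ (i + 1) ≤ u / r := by
      rw [div_le_div_iff₀ (by positivity) hr, one_mul]
      rw [div_le_iff₀ (by positivity)] at hi1
      linarith
    have h4 : (1 / R ^ (i + 1)) ^ s ≤ (u / r) ^ s := Real.rpow_le_rpow (by positivity) h3 hs.le
    rw [Real.div_rpow zero_le_one (by positivity), Real.one_rpow] at h4
    have h5 : (R ^ (i + 1)) ^ s = (R ^ s) ^ (i + 1) := by
      rw [← Real.rpow_natCast, ← Real.rpow_mul hR0.le, mul_comm, Real.rpow_mul hR0.le, Real.rpow_natCast]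
    rw [h5] at h4
    have h6 : (R ^ s) ^ (i + 1) ≤ M ^ (i + 1) := by
      apply pow_le_pow_left₀ (by positivity)
      linarith
    have h7 : M ^ m * M = M ^ (m - i) * M ^ (i + 1) := by
      rw [← pow_succ, ← pow_add]; congr 1; omega
    calc M ^ (m - i) = M ^ (m - i) * (R ^ s) ^ (i + 1) * (1 / (R ^ s) ^ (i + 1)) := by field_simp
      _ ≤ M ^ (m - i) * M ^ (i + 1) * (u / r) ^ s := by gcongr
      _ = _ := by rw [h7]

theorem macro_step {L : ℕ} (hL : 9 ≤ L) {a κ c ε : ℝ} (ha : a = 1 / 400) (hκ : κ = 1 / (8000 * L))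
    (hc : c = κ ^ 2 / a) (hε0 : 0 < ε) (hεκ : ε ≤ κ) {J k₁ : ℕ} (hJ : 4 / κ ^ 2 ≤ 2 ^ J * a)
    (hk₁ : J < k₁) (hk₁' : 3200 ≤ k₁) (hε2 : 64 * ε * k₁ ^ 2 / κ ^ 2 ≤ a)
    {s : ℝ} (hs0 : 0 < s) (hsM : 2 * ((2 : ℝ) ^ L) ^ s ≤ 2 ^ (L - 2)) {x r : ℝ} (hg : Good a c ε x r)
    (j : ℕ) {δ : ℝ} (hδ : 0 < δ) :
    ∃ (ρ : ℝ) (F : Finset ℝ), 0 < ρ ∧ ρ ≤ δ ∧
      (∀ y ∈ F, Good a c ε y ρ ∧ closedBall y ρ ⊆ closedBall x r ∧ closedBall y ρ ⊆ Vj ε j) ∧
      4 * (r / ρ) ^ s ≤ F.card ∧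
      ∀ (U : Set ℝ) (u : ℝ), 0 < u → (∀ x ∈ U, ∀ y ∈ U, dist x y ≤ u) →
        ∀ (G : Finset ℝ), G ⊆ F → (∀ y ∈ G, (U ∩ closedBall y ρ).Nonempty) →
          (u < ρ → G.card ≤ 1) ∧
          (ρ ≤ u → u ≤ r → (G.card : ℝ) ≤ F.card / (4 * (1 / (4 * 2 ^ (L - 2)))) * (u / r) ^ s) := by
  classical
  have hL0 : (9 : ℝ) ≤ L := by exact_mod_cast hL
  have hκ0 : 0 < κ := by rw [hκ]; positivity
  have hκs : κ ≤ 1 / 72000 := by
    rw [hκ]
    apply one_div_le_one_div_of_le (by norm_num)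
    linarith
  have ha0 : 0 < a := by rw [ha]; norm_num
  have hr := hg.1
  obtain ⟨S, hS1, hS⟩ := special_step ha hκ0 hκs hc hJ hk₁ hk₁' hε0 (by linarith) hε2
    (η := 1 / ((j : ℝ) + 1)) (by positivity)
  have hS' := hS S le_rfl
  have hS0 : 0 < S := by linarith
  obtain ⟨R, hR⟩ : ∃ R : ℝ, R = 2 ^ L := ⟨_, rfl⟩
  have hR2 : 2 ≤ R := by
    rw [hR]
    calc (2 : ℝ) = 2 ^ 1 := by norm_num
      _ ≤ 2 ^ L := pow_le_pow_right₀ (by norm_num) (by omega)
  have hR0 : 0 < R := by linarith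
  obtain ⟨M, hM⟩ : ∃ M : ℝ, M = 2 ^ (L - 2) := ⟨_, rfl⟩
  rw [← hR, ← hM] at hsM
  -- choose the number of levels
  obtain ⟨m, hm1, hm2⟩ : ∃ m : ℕ, 1 ≤ m ∧ max (4 * S ^ s) (max (r / δ) (r * j / a)) ≤ 2 ^ m := by
    obtain ⟨m, hm⟩ := pow_unbounded_of_one_lt (max (4 * S ^ s) (max (r / δ) (r * j / a)))
      (by norm_num : (1 : ℝ) < 2)
    exact ⟨m + 1, by omega, hm.le.trans (pow_le_pow_right₀ (by norm_num) (by omega))⟩
  have hm3 : 4 * S ^ s ≤ 2 ^ m := (le_max_left _ _).trans hm2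
  have hm4 : r / δ ≤ 2 ^ m := ((le_max_left _ _).trans (le_max_right _ _)).trans hm2
  have hm5 : r * j / a ≤ 2 ^ m := ((le_max_right _ _).trans (le_max_right _ _)).trans hm2
  have h2R : (2 : ℝ) ^ m ≤ R ^ m := by gcongr
  have hRm0 : 0 < R ^ m := by positivity
  have hMS : 4 * (R ^ m * S) ^ s ≤ M ^ m := by
    have h1 : (R ^ m) ^ s = (R ^ s) ^ m := by
      rw [← Real.rpow_natCast, ← Real.rpow_mul hR0.le, mul_comm, Real.rpow_mul hR0.le, Real.rpow_natCast]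
    rw [Real.mul_rpow hRm0.le hS0.le, h1]
    calc 4 * ((R ^ s) ^ m * S ^ s) = 4 * S ^ s * (R ^ s) ^ m := by ring
      _ ≤ 2 ^ m * (R ^ s) ^ m := by gcongr
      _ = (2 * R ^ s) ^ m := by rw [mul_pow]
      _ ≤ M ^ m := by gcongr
  obtain ⟨T, hTcard, hTgood, hTin, hTsep, hTcount⟩ := tree hL ha hκ hc hε0 hεκ m x r hg
  rw [← hR] at hTgood hTin hTsep hTcount
  have hρ0 : 0 < r / R ^ m := by positivity
  have hch : ∀ y, ∃ z, y ∈ T → (Good a c ε z (r / R ^ m / S) ∧ |z - y| + r / R ^ m / S ≤ r / R ^ m ∧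
        ∀ w, |w - z| ≤ r / R ^ m / S → ∃ p q : ℤ, 0 < q ∧ (q : ℝ) * |q * w - p| ≤ 1 / ((j : ℝ) + 1)) := by
    intro y
    by_cases hy : y ∈ T
    · obtain ⟨z, hz⟩ := hS' y _ (hTgood y hy)
      exact ⟨z, fun _ => hz⟩
    · exact ⟨0, fun h => absurd h hy⟩
  choose g hg' using hch
  obtain ⟨ρ, hρ⟩ : ∃ ρ : ℝ, ρ = r / R ^ m / S := ⟨_, rfl⟩
  rw [← hρ] at hg'
  have hρpos : 0 < ρ := by rw [hρ]; positivity
  have hρle : ρ ≤ r / R ^ m := by rw [hρ]; exact div_le_self hρ0.le hS1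
  have hρe : ρ = r / (R ^ m * S) := by rw [hρ, div_div]
  have hinj : Set.InjOn g T := by
    intro y hy y' hy' hyy
    by_contra hne
    have h1 := hTsep y hy y' hy' hne
    have h2 := (hg' y hy).2.1
    have h3 := (hg' y' hy').2.1
    rw [← hyy] at h3
    have h4 := abs_sub_le y (g y) y'
    rw [abs_sub_comm y (g y)] at h4
    have h5 : 4 * r / R ^ m = 4 * (r / R ^ m) := by ring
    linarith
  have hcardF : (T.image g).card = T.card := Finset.card_image_of_injOn hinj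
  have hTcard' : (T.card : ℝ) = M ^ m := by rw [hTcard, hM]; push_cast; rfl
  refine ⟨ρ, T.image g, hρpos, ?_, ?_, ?_, ?_⟩
  · -- radius
    refine hρle.trans ?_
    rw [div_le_iff₀ hRm0]
    rw [div_le_iff₀ hδ] at hm4
    calc r ≤ 2 ^ m * δ := hm4
      _ ≤ R ^ m * δ := by gcongr
      _ = δ * R ^ m := by ring
  · intro z hz
    obtain ⟨y, hy, rfl⟩ := Finset.mem_image.1 hz
    obtain ⟨h1, h2, h3⟩ := hg' y hy
    refine ⟨h1, ?_, ?_⟩
    · intro w hw
      rw [mem_closedBall, Real.dist_eq] at hw ⊢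
      have h4 := hTin y hy
      have h5 := abs_sub_le w (g y) x
      have h6 := abs_sub_le (g y) y x
      linarith
    · intro w hw
      rw [mem_closedBall, Real.dist_eq] at hw
      refine ⟨h3 w hw, ?_⟩
      intro A B hAB hAj
      refine h1.2.2.1 _ ⟨A, B, hAB, rfl⟩ ?_ w hw
      have hA : (0 : ℝ) < A := by exact_mod_cast hAB.1
      calc (A : ℝ) * ρ ≤ j * (r / R ^ m) := by gcongr
        _ = r * j / R ^ m := by ring
        _ ≤ a := by
          rw [div_le_iff₀ hRm0]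
          rw [div_le_iff₀ ha0] at hm5
          calc r * j ≤ 2 ^ m * a := hm5
            _ ≤ R ^ m * a := by gcongr
            _ = a * R ^ m := by ring
  · rw [hcardF, hTcard']
    have h1 : r / ρ = R ^ m * S := by rw [hρe]; field_simp
    rw [h1]
    exact hMS
  · intro U u hu0 hU G hG hGU
    -- pull back `G` to the leaves
    obtain ⟨G', hG', hGG⟩ : ∃ G' : Finset ℝ, G' ⊆ T ∧ G = G'.image g := by
      refine ⟨T.filter (fun y => g y ∈ G), Finset.filter_subset _ _, ?_⟩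
      ext z
      simp only [Finset.mem_image, Finset.mem_filter]
      constructor
      · intro hz
        obtain ⟨y, hy, rfl⟩ := Finset.mem_image.1 (hG hz)
        exact ⟨y, ⟨hy, hz⟩, rfl⟩
      · rintro ⟨y, ⟨_, hy2⟩, rfl⟩
        exact hy2
    have hGcard : G.card = G'.card := by
      rw [hGG]
      exact Finset.card_image_of_injOn (hinj.mono (by exact_mod_cast hG'))
    have hGU' : ∀ y ∈ G', (U ∩ closedBall y (r / R ^ m)).Nonempty := by
      intro y hy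
      obtain ⟨w, hwU, hw⟩ := hGU (g y) (by rw [hGG]; exact Finset.mem_image_of_mem g hy)
      refine ⟨w, hwU, ?_⟩
      rw [mem_closedBall, Real.dist_eq] at hw ⊢
      have h2 := (hg' y (hG' hy)).2.1
      have h3 := abs_sub_le w (g y) y
      linarith
    have hcnt := hTcount U u hU G' hG' hGU'
    rw [hGcard]
    constructor
    · intro huρ
      have h1 := hcnt m hm1 le_rfl (by
        have h5 : 2 * r / R ^ m = 2 * (r / R ^ m) := by ring
        rw [h5]; linarith)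
      simpa using h1
    · intro hρu hur
      rw [hcardF, hTcard', ← hM]
      refine count_aux hR2 hsM hs0 hr hm1 hS1 hMS hu0 hρe hρu ?_ ?_
      · rw [← hTcard']
        exact_mod_cast Finset.card_le_card hG'
      · intro i hi1 hi2 hi3
        have h1 := hcnt i hi1 hi2 hi3
        have h2 : (G'.card : ℝ) ≤ (((2 ^ (L - 2)) ^ (m - i) : ℕ) : ℝ) := by exact_mod_cast h1
        rw [hM]
        push_cast at h2
        exact h2

end Pool.Agent.T2H63.DI
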