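import Mathlib
import Pool.Agent.T2H63.DI.Crit
import Pool.Agent.T2H63.DI.Macro

set_option autoImplicit false

open MeasureTheory Set Metric

namespace Pool.Agent.Results.MP_613544_nt.FullDimension

/-- The critical radius `r₂ = (2/√3)^{1/2}` of the Euclidean ball in the plane. -/
noncomputable def r₂ : ℝ := Real.sqrt (2 / Real.sqrt 3)

/-- The Euclidean Dirichlet improvable numbers: there is a constant `0 < c < 1` such that for all
sufficiently large `t > 0` there are integers `(p, q) ≠ (0, 0)` with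
`(t (p + q x) / c)² + (q / t)² ≤ r₂²`. -/
def DI₂ : Set ℝ :=
  {x | ∃ c : ℝ, 0 < c ∧ c < 1 ∧ ∃ t₀ : ℝ, ∀ t : ℝ, 0 < t → t₀ ≤ t →
    ∃ p q : ℤ, (p, q) ≠ (0, 0) ∧ (t * ((p : ℝ) + q * x) / c) ^ 2 + ((q : ℝ) / t) ^ 2 ≤ r₂ ^ 2}

/-- The badly approximable numbers. -/
def BA : Set ℝ :=
  {x | ∃ κ : ℝ, 0 < κ ∧ ∀ p q : ℤ, q ≠ 0 → κ ≤ |(q : ℝ) * x - p| * |(q : ℝ)|}

open Pool.Agent.T2H63.DI

theorem sub_DI {ε : ℝ} (hε : 0 < ε) {x : ℝ} (hx : ∀ j, x ∈ Vj ε j) : x ∈ DI₂ \ BA := by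
  constructor
  · obtain ⟨c, hc0, hc1, h⟩ := crit (x := x) hε (by
      intro A B C hA hABC
      have hA' : (0 : ℝ) < A := by exact_mod_cast hA
      have h1 := (hx A.toNat).2 A B ⟨hA, C, hABC⟩ (by
        exact_mod_cast (Int.self_le_toNat A))
      have h2 : 2 * (A : ℝ) * x - B = 2 * A * (x - B / (2 * A)) := by field_simp
      rw [h2, abs_mul, abs_of_pos (by positivity : (0 : ℝ) < 2 * A)]
      rw [div_le_iff₀ hA'] at h1
      nlinarith)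
    refine ⟨c, hc0, hc1, 0, fun t ht _ => ?_⟩
    obtain ⟨p, q, hpq, h1⟩ := h t ht
    refine ⟨p, q, hpq, ?_⟩
    rw [r₂, Real.sq_sqrt (by positivity)]
    exact h1
  · rintro ⟨κ, hκ, h⟩
    obtain ⟨j, hj⟩ := exists_nat_one_div_lt hκ
    obtain ⟨p, q, hq, h1⟩ := (hx j).1
    have h2 := h p q hq.ne'
    have hq' : (0 : ℝ) < q := by exact_mod_cast hq
    rw [abs_of_pos hq'] at h2
    linarith

theorem dim_ge {s : ℝ} (hs0 : 0 < s) (hs1 : s < 1) : ENNReal.ofReal s ≤ dimH (DI₂ \ BA) := by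
  obtain ⟨L, hL9, hLs⟩ : ∃ L : ℕ, 9 ≤ L ∧ 3 ≤ L * (1 - s) := by
    obtain ⟨n, hn⟩ := exists_nat_gt (3 / (1 - s))
    refine ⟨n + 9, by omega, ?_⟩
    have h1 : 0 < 1 - s := by linarith
    rw [div_lt_iff₀ h1] at hn
    push_cast
    nlinarith
  have hL0 : (9 : ℝ) ≤ L := by exact_mod_cast hL9
  obtain ⟨a, ha⟩ : ∃ a : ℝ, a = 1 / 400 := ⟨_, rfl⟩
  obtain ⟨κ, hκ⟩ : ∃ κ : ℝ, κ = 1 / (8000 * L) := ⟨_, rfl⟩
  obtain ⟨c, hc⟩ : ∃ c : ℝ, c = κ ^ 2 / a := ⟨_, rfl⟩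
  have ha0 : 0 < a := by rw [ha]; norm_num
  have hκ0 : 0 < κ := by rw [hκ]; positivity
  obtain ⟨J, hJ⟩ : ∃ J : ℕ, 4 / κ ^ 2 ≤ 2 ^ J * a := by
    obtain ⟨J, hJ⟩ := pow_unbounded_of_one_lt (4 / κ ^ 2 / a) (by norm_num : (1 : ℝ) < 2)
    exact ⟨J, by rw [div_lt_iff₀ ha0] at hJ; exact hJ.le⟩
  obtain ⟨k₁, hk₁⟩ : ∃ k₁ : ℕ, k₁ = J + 3201 := ⟨_, rfl⟩
  have hk₁0 : (0 : ℝ) < k₁ := by exact_mod_cast (by omega : 0 < k₁)
  obtain ⟨ε, hε⟩ : ∃ ε : ℝ, ε = min κ (a * κ ^ 2 / (64 * k₁ ^ 2)) := ⟨_, rfl⟩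
  have hε0 : 0 < ε := by rw [hε]; positivity
  have hεκ : ε ≤ κ := by rw [hε]; exact min_le_left _ _
  have hε2 : 64 * ε * k₁ ^ 2 / κ ^ 2 ≤ a := by
    have h1 : ε ≤ a * κ ^ 2 / (64 * k₁ ^ 2) := by rw [hε]; exact min_le_right _ _
    rw [le_div_iff₀ (by positivity)] at h1
    rw [div_le_iff₀ (by positivity)]
    linarith
  have hsM : 2 * ((2 : ℝ) ^ L) ^ s ≤ 2 ^ (L - 2) := by
    have h1 : ((2 : ℝ) ^ L) ^ s = (2 : ℝ) ^ ((L : ℝ) * s) := by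
      rw [← Real.rpow_natCast, ← Real.rpow_mul (by norm_num)]
    have h2 : (2 : ℝ) * 2 ^ ((L : ℝ) * s) = 2 ^ ((L : ℝ) * s + 1) := by
      rw [Real.rpow_add (by norm_num), Real.rpow_one, mul_comm]
    have h3 : (2 : ℝ) ^ (L - 2) = (2 : ℝ) ^ ((L : ℝ) - 2) := by
      have : (L : ℝ) - 2 = ((L - 2 : ℕ) : ℝ) := by
        rw [Nat.cast_sub (by omega)]; norm_num
      rw [this, Real.rpow_natCast]
    rw [h1, h2, h3]
    apply Real.rpow_le_rpow_of_exponent_le (by norm_num)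
    linarith
  have hκ1 : (1 : ℝ) / (4 * 2 ^ (L - 2)) < 1 := by
    rw [div_lt_one (by positivity)]
    have : (1 : ℝ) ≤ 2 ^ (L - 2) := one_le_pow₀ (by norm_num)
    linarith
  have hnest := Pool.Agent.H438R2.nest (X := ℝ) s (1 / (4 * 2 ^ (L - 2))) hs0 (by positivity) hκ1
    {b | Good a c ε b.1 b.2} (Vj ε) (fun b hb => hb.1)
    (fun b hb j δ hδ => by
      obtain ⟨ρ, F, h1, h2, h3, h4, h5⟩ := macro_step hL9 ha hκ hc hε0 hεκ hJ (by omega) (by omega) hε2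
        hs0 hsM hb j hδ
      exact ⟨ρ, F, h1, h2, h3, h4, h5⟩)
    (0, 1) ⟨one_pos, le_rfl, by
      rintro u ⟨A, B, hAB, rfl⟩ h1
      exfalso
      have hA : (1 : ℝ) ≤ A := by exact_mod_cast hAB.1
      simp only at h1
      rw [ha] at h1
      linarith, by
      intro p q hq h1
      exfalso
      have hq' : (1 : ℝ) ≤ q := by exact_mod_cast hq
      simp only at h1
      rw [ha] at h1
      nlinarith⟩
  have hne : μH[s] (DI₂ \ BA) ≠ 0 := by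
    intro h0
    refine hnest (measure_mono_null ?_ h0)
    rintro x ⟨hx, -⟩
    exact sub_DI hε0 hx
  have hcoe : ((Real.toNNReal s : NNReal) : ℝ) = s := Real.coe_toNNReal _ hs0.le
  exact le_dimH_of_hausdorffMeasure_ne_zero (d := Real.toNNReal s) (by rw [hcoe]; exact hne)

/-- `DI₂ ∖ BA` has full Hausdorff dimension. -/
theorem result : dimH (DI₂ \ BA) = 1 := by
  apply le_antisymm
  · rw [← Real.dimH_univ]
    exact dimH_mono (subset_univ _)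
  · refine le_of_forall_lt (fun b hb => ?_)
    obtain ⟨b', hb1, hb2⟩ := exists_between hb
    have hb3 : b' ≠ ⊤ := ne_top_of_lt hb2
    have hb4 : 0 < b' := lt_of_le_of_lt zero_le hb1
    have h1 : 0 < b'.toReal := ENNReal.toReal_pos hb4.ne' hb3
    have h2 : b'.toReal < 1 := by
      have := (ENNReal.toReal_lt_toReal hb3 ENNReal.one_ne_top).2 hb2
      simpa using this
    have h3 := dim_ge h1 h2
    rw [ENNReal.ofReal_toReal hb3] at h3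
    exact hb1.trans_le h3

end Pool.Agent.Results.MP_613544_nt.FullDimension
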